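import Pool.Agent.T2H36.MG.H5

set_option autoImplicit false
set_option linter.unusedSectionVars false
set_option linter.style.haveILetI false

/-!
Project MG, part 6: Hodge structures; the final theorem.
-/

open Matrix Filter Topology NumberField IsDedekindDomain
open Pool.Agent.Y142.ZO Pool.Agent.Y142.ZS
open Pool.Agent.Y95.MT
open Pool.Agent.R932.PO (JTan IsForm Kind Fits Allows Sys JL det_map_ne)
open Pool.Agent.R932.EV (SS SC)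

namespace Pool.Agent.T2H36.MG

noncomputable section

variable {κ : Type} [Fintype κ] [DecidableEq κ] {ι : Type} [Fintype ι] [DecidableEq ι] {n : ι → ℕ}
  {Q : ∀ i, Matrix (Fin (n i)) (Fin (n i)) ℚ} {e : ι → ℕ}

theorem norm_inf {w : ℤ} (hw : w ≠ 0) :
    ((fun z : ℂ => (z * starRingEnd ℂ z) ^ (-w)) '' {z | z ≠ 0}).Infinite := by
  have h1 : Function.Injective fun k : ℕ => ((((k : ℝ) + 1) * ((k : ℝ) + 1)) ^ (-w) : ℝ) := by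
    intro k l hkl
    have h2 : ∀ k : ℕ, (0 : ℝ) < ((k : ℝ) + 1) * ((k : ℝ) + 1) := fun k => by positivity
    have h3 := (zpow_left_inj₀ (h2 k).le (h2 l).le (neg_ne_zero.2 hw)).1 hkl
    have h4 : ((k : ℝ) + 1 - ((l : ℝ) + 1)) * ((k : ℝ) + 1 + ((l : ℝ) + 1)) = 0 := by
      linear_combination h3
    rcases mul_eq_zero.1 h4 with h5 | h5
    · have h6 : (k : ℝ) = l := by linarith
      exact_mod_cast h6
    · have : (0 : ℝ) < (k : ℝ) + 1 + ((l : ℝ) + 1) := by positivity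
      linarith
  refine Set.infinite_of_injective_forall_mem (f := fun k : ℕ =>
    (((((k : ℝ) + 1) * ((k : ℝ) + 1)) ^ (-w) : ℝ) : ℂ)) (fun k l hkl => h1 (Complex.ofReal_injective hkl)) ?_
  intro k
  refine ⟨((k : ℝ) + 1 : ℝ), ?_, ?_⟩
  · show (((k : ℝ) + 1 : ℝ) : ℂ) ≠ 0
    have : (0 : ℝ) < (k : ℝ) + 1 := by positivity
    exact_mod_cast this.ne'
  · show ((((k : ℝ) + 1 : ℝ) : ℂ) * starRingEnd ℂ (((k : ℝ) + 1 : ℝ) : ℂ)) ^ (-w) = _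
    rw [Complex.conj_ofReal, ← Complex.ofReal_mul, ← Complex.ofReal_zpow]

theorem hod_of {t : ∀ i, ℂ → Matrix (Fin (n i)) (Fin (n i)) ℂ} (hQ : ∀ i, (Q i).det ≠ 0) {w : ℤ}
    (hw : w ≠ 0) (hmul : ∀ i z u, z ≠ 0 → u ≠ 0 → t i (z * u) = t i z * t i u)
    (hform : ∀ i z, z ≠ 0 → Sim ((Q i).map (algebraMap ℚ ℂ)) (t i z)
      (((z * starRingEnd ℂ z) ^ (-w)) ^ e i)) :
    Hod κ Q e (fun z => emb κ fun i => t i z) := by
  refine ⟨fun z => (z * starRingEnd ℂ z) ^ (-w), norm_inf hw, fun z hz => ⟨?_, fun i => t i z, rfl,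
    fun i => ⟨hform i z hz, fun hi => ?_⟩⟩⟩
  · exact zpow_ne_zero _ (mul_ne_zero hz ((map_ne_zero _).2 hz))
  · obtain ⟨u, hu⟩ := IsAlgClosed.exists_pow_nat_eq z (by norm_num : 0 < 2)
    have hu0 : u ≠ 0 := by
      rintro rfl
      apply hz
      rw [← hu]
      norm_num
    have h1 := hform i u hu0
    rw [hi, pow_zero, sim_one] at h1
    have h2 := congrArg Matrix.det h1
    rw [det_mul, det_mul, det_transpose] at h2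
    have h3 := qmap_det (F := ℂ) (hQ i)
    have h4 : (t i u).det * (t i u).det = 1 := by
      have h5 : ((Q i).map (algebraMap ℚ ℂ)).det * ((t i u).det * (t i u).det - 1) = 0 := by
        linear_combination h2
      exact sub_eq_zero.1 ((mul_eq_zero.1 h5).resolve_left h3)
    show (t i z).det = 1
    rw [← hu, sq, hmul i u u hu0 hu0, det_mul, h4]

/-- the conditions on a piece and the prime `ℓ₀` -/
def Good (sp : Bool) (m : ℕ) (A : Matrix (Fin m) (Fin m) ℚ) (ℓ₀ : ℕ) : Prop :=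
  match sp with
  | true => 0 < m ∧ Aᵀ = -A ∧ ℓ₀ ≠ 2
  | false => Aᵀ = A ∧ ((Odd m ∧ 5 ≤ m ∧ ¬ ℓ₀ ∣ m - 1) ∨
      (Even m ∧ 8 ≤ m ∧ ¬ ℓ₀ ∣ (m - 2) * (m - 4) ∧ Even (padicValRat ℓ₀ A.det)))

theorem Good.kind {sp : Bool} {m : ℕ} {A : Matrix (Fin m) (Fin m) ℚ} {ℓ₀ : ℕ} [Fact ℓ₀.Prime]
    (h : Good sp m A ℓ₀) : ∃ kd : Kind, Fits kd A ∧
      Allows kd m ℓ₀ (A.map (algebraMap ℚ ℚ_[ℓ₀])) ∧
      ((kd = Kind.sym ∧ sp = true) ∨ (kd ≠ Kind.sym ∧ sp = false)) := by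
  cases sp with
  | true => exact ⟨.sym, ⟨h.2.1, h.1⟩, h.2.2, Or.inl ⟨rfl, rfl⟩⟩
  | false =>
    obtain ⟨hs, h | h⟩ := h
    · exact ⟨.odd, ⟨hs, h.1, h.2.1⟩, h.2.2, Or.inr ⟨by simp, rfl⟩⟩
    · refine ⟨.even, ⟨hs, h.1, h.2.1⟩, ⟨h.2.2.1, ?_⟩, Or.inr ⟨by simp, rfl⟩⟩
      have h1 : (A.map (algebraMap ℚ ℚ_[ℓ₀])).det = ((A.det : ℚ) : ℚ_[ℓ₀]) := by
        have := (algebraMap ℚ ℚ_[ℓ₀]).map_det A
        rw [RingHom.mapMatrix_apply] at this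
        rw [← this]
        rfl
      rw [h1, Padic.valuation_ratCast]
      exact h.2.2.2

/-- **the Mumford-Tate conjecture from one prime: final form** -/
theorem mg_final {K : Type} [Field K] [NumberField K] {S : Set (HeightOneSpectrum (𝓞 K))}
    {P : ι → HeightOneSpectrum (𝓞 K) → Polynomial ℚ}
    {h : ℂ → Matrix (κ ⊕ Σ i, Fin (n i)) (κ ⊕ Σ i, Fin (n i)) ℂ} {sp : ι → Bool}
    (hS : S.Finite) (hQ : ∀ i, (Q i).det ≠ 0)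
    (hh : Hod κ Q (fun i => bif sp i then 1 else 0) h) (hb : Big κ Q h) {w : ℤ} (hw : w ≠ 0)
    (α : ∀ (ℓ : ℕ) [Fact ℓ.Prime], GK K →* Matrix κ κ ℚ_[ℓ])
    (hα : ∀ (ℓ : ℕ) [Fact ℓ.Prime], (Set.range (α ℓ)).Finite)
    (χ : ∀ (ℓ : ℕ) [Fact ℓ.Prime], GK K →* ℚ_[ℓ])
    (hχ : ∀ (ℓ : ℕ) [Fact ℓ.Prime], ∀ v ∉ S, (ℓ : 𝓞 K) ∉ v.asIdeal → ∀ σ : GK K, IsFrobenius v σ →
      χ ℓ σ⁻¹ = (Ideal.absNorm v.asIdeal : ℚ_[ℓ]) ^ w)
    (ρ : ∀ (i : ι) (ℓ : ℕ) [Fact ℓ.Prime], GK K →* Matrix (Fin (n i)) (Fin (n i)) ℚ_[ℓ])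
    (hρc : ∀ (i : ι) (ℓ : ℕ) [Fact ℓ.Prime], Continuous (ρ i ℓ))
    (hmult : ∀ (i : ι) (ℓ : ℕ) [Fact ℓ.Prime] (g : GK K),
      Sim (JL Q ℓ i) (ρ i ℓ g) (χ ℓ g ^ (bif sp i then 1 else 0)))
    (hfrob : ∀ (i : ι) (ℓ : ℕ) [Fact ℓ.Prime], ∀ v ∉ S, (ℓ : 𝓞 K) ∉ v.asIdeal → ∀ σ : GK K,
      IsFrobenius v σ → (ρ i ℓ σ⁻¹).charpoly = (P i v).map (algebraMap ℚ ℚ_[ℓ]))
    (ℓ₀ : ℕ) [hℓ₀ : Fact ℓ₀.Prime] (hgood : ∀ i, Good (sp i) (n i) (Q i) ℓ₀)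
    (hone : MTC h (tot' (α ℓ₀) (fun i => ρ i ℓ₀))) :
    Y142.ZI.DensityZero {ℓ | ∃ _ : Fact ℓ.Prime, ¬ MTC h (tot' (α ℓ) (fun i => ρ i ℓ))} ∧
    ∀ (ℓ : ℕ) [Fact ℓ.Prime], MTC h (tot' (α ℓ) (fun i => ρ i ℓ)) ↔
      ∀ i, SS (ρ i ℓ) ∧ SC (ρ i ℓ) := by
  choose kd hfit hal hkd using fun i => (hgood i).kind
  have hek : ∀ i, (kd i = Kind.sym ∧ (bif sp i then 1 else 0) = 1) ∨
      (kd i ≠ Kind.sym ∧ (bif sp i then 1 else 0) = 0) := by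
    intro i
    rcases hkd i with ⟨h1, h2⟩ | ⟨h1, h2⟩
    · exact Or.inl ⟨h1, by rw [h2]; rfl⟩
    · exact Or.inr ⟨h1, by rw [h2]; rfl⟩
  obtain ⟨hd, hev⟩ := mg_main hS hfit hQ hek hh hb hw α hα χ hχ ρ hρc hmult hfrob ℓ₀ hal hone
  refine ⟨hd, fun ℓ _ => ⟨fun hm => ?_, fun hm => hev ℓ (fun i => (hm i).1) fun i => (hm i).2⟩⟩
  have he1 : ∀ i, (bif sp i then 1 else 0) = 0 ∨ (bif sp i then 1 else 0) = 1 := fun i =>
    (hek i).elim (fun h => Or.inr h.2) fun h => Or.inl h.2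
  have he : ∀ i, (bif sp i then 1 else 0) = 0 ∨ (Q i)ᵀ = -Q i := by
    intro i
    rcases hek i with ⟨h1, -⟩ | ⟨-, h2⟩
    · have h3 := hfit i
      rw [h1] at h3
      exact Or.inr h3.1
    · exact Or.inl h2
  have hform : ∀ i : ι, IsForm (JL Q ℓ i) := fun i =>
    ((hfit i).map (algebraMap ℚ ℚ_[ℓ])).isForm (det_map_ne (algebraMap ℚ ℚ_[ℓ]) (hQ i))
  have hfull := full_of_mtc' (e := fun i => bif sp i then 1 else 0) he1 he hform hQ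
    (fun i => (hfit i).pos) hh hb (fun i => hρc i ℓ) (fun i g => ⟨_, hmult i ℓ g⟩) hm
  exact fun i => ⟨ss_of_joint hform hfull i, sc_of_joint (fun i => hρc i ℓ) hform hfull i⟩

end

end Pool.Agent.T2H36.MG
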