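import Pool.Agent.T2H36.MG.H4
import Pool.Agent.R932.OP.AltB

set_option autoImplicit false
set_option linter.unusedSectionVars false
set_option linter.style.haveILetI false

/-!
Project MG, part 5: the full Lie algebra acts irreducibly, with scalar commutant.
-/

open Matrix Filter Topology
open Pool.Agent.Y142.ZO Pool.Agent.Y142.ZS
open Pool.Agent.R932.PO (JTan IsForm Kind Fits Allows Sys JL det_map_ne)
open Pool.Agent.R932.EV (SS SC)

namespace Pool.Agent.T2H36.MG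

section lie

variable {F : Type} [Field F] [CharZero F] {N : ℕ} {J : Matrix (Fin N) (Fin N) F}

/-- elements of rank two of the Lie algebra -/
def rk (J : Matrix (Fin N) (Fin N) F) (ε : F) (a b : Fin N → F) : Matrix (Fin N) (Fin N) F :=
  vecMulVec b (Jᵀ *ᵥ a) - ε • vecMulVec a (Jᵀ *ᵥ b)

theorem rk_mulVec (ε : F) (a b v : Fin N → F) :
    rk J ε a b *ᵥ v = (a ⬝ᵥ J *ᵥ v) • b - (ε * (b ⬝ᵥ J *ᵥ v)) • a := by
  have h1 : ∀ x y : Fin N → F, vecMulVec y (Jᵀ *ᵥ x) *ᵥ v = (x ⬝ᵥ J *ᵥ v) • y := by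
    intro x y
    rw [Matrix.vecMulVec_mulVec, op_smul_eq_smul, mulVec_transpose, ← dotProduct_mulVec]
  rw [rk, sub_mulVec, smul_mulVec, h1, h1, smul_smul]

theorem rk_mem {ε : F} (hε : ε * ε = 1) (hJ : Jᵀ = ε • J) (a b : Fin N → F) :
    SpLie J (rk J ε a b) := by
  have hJ' : J = ε • Jᵀ := by rw [hJ, smul_smul, hε, one_smul]
  have h1 : ∀ x y : Fin N → F, (vecMulVec y (Jᵀ *ᵥ x))ᵀ * J = vecMulVec (Jᵀ *ᵥ x) (Jᵀ *ᵥ y) := by
    intro x y
    rw [transpose_vecMulVec, vecMulVec_mul, mulVec_transpose J y]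
  have h2 : ∀ x y : Fin N → F, J * vecMulVec y (Jᵀ *ᵥ x) =
      ε • vecMulVec (Jᵀ *ᵥ y) (Jᵀ *ᵥ x) := by
    intro x y
    rw [mul_vecMulVec]
    conv_lhs => rw [hJ']
    rw [smul_mulVec, transpose_smul, transpose_transpose]
    ext i j
    simp only [vecMulVec_apply, Matrix.smul_apply, Pi.smul_apply, smul_eq_mul]
    rw [hJ]
    simp only [smul_mulVec, Pi.smul_apply, smul_eq_mul]
    ring
  unfold SpLie rk
  rw [transpose_sub, transpose_smul, sub_mul, smul_mul_assoc, h1, h1, mul_sub, mul_smul_comm, h2,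
    h2, smul_smul, hε, one_smul]
  abel

/-- a vector which pairs to `1` -/
theorem exists_pair (hd : J.det ≠ 0) {w : Fin N → F} (hw : w ≠ 0) : ∃ a, a ⬝ᵥ J *ᵥ w = 1 := by
  have h1 : J *ᵥ w ≠ 0 := fun h => hw (Matrix.eq_zero_of_mulVec_eq_zero hd h)
  obtain ⟨i, hi⟩ : ∃ i, (J *ᵥ w) i ≠ 0 := by
    by_contra h
    push Not at h
    exact h1 (funext h)
  refine ⟨Pi.single i ((J *ᵥ w) i)⁻¹, ?_⟩
  rw [single_dotProduct, inv_mul_cancel₀ hi]

theorem bil_symm {ε : F} (hJ : Jᵀ = ε • J) (a b : Fin N → F) :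
    b ⬝ᵥ Jᵀ *ᵥ a = a ⬝ᵥ J *ᵥ b ∧ b ⬝ᵥ Jᵀ *ᵥ a = ε * (b ⬝ᵥ J *ᵥ a) := by
  refine ⟨?_, ?_⟩
  · rw [dotProduct_comm, mulVec_transpose, ← dotProduct_mulVec]
  · rw [hJ, smul_mulVec, dotProduct_smul, smul_eq_mul]

/-- **the Lie algebra acts irreducibly** -/
theorem lie_irr (hJ : (Jᵀ = J ∧ 3 ≤ N) ∨ Jᵀ = -J) (hd : J.det ≠ 0)
    (W : Submodule F (Fin N → F)) (hW : ∀ X, SpLie J X → ∀ w ∈ W, X *ᵥ w ∈ W) :
    W = ⊥ ∨ W = ⊤ := by
  by_cases hbot : W = ⊥
  · exact Or.inl hbot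
  right
  rw [eq_top_iff]
  obtain ⟨w, hw, hw0⟩ := Submodule.exists_mem_ne_zero_of_ne_bot hbot
  obtain ⟨ε, hεε, hJε⟩ : ∃ ε : F, ε * ε = 1 ∧ Jᵀ = ε • J := by
    rcases hJ with ⟨h, -⟩ | h
    · exact ⟨1, one_mul 1, by rw [one_smul]; exact h⟩
    · exact ⟨-1, by ring, by rw [neg_one_smul]; exact h⟩
  have key : ∀ u ∈ W, u ≠ 0 → ∀ b, b ⬝ᵥ J *ᵥ u = 0 → b ∈ W := by
    intro u hu hu0 b hb
    obtain ⟨a, ha⟩ := exists_pair hd hu0
    have h1 := hW _ (rk_mem hεε hJε a b) u hu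
    rwa [rk_mulVec, ha, hb, mul_zero, zero_smul, one_smul, sub_zero] at h1
  obtain ⟨a, ha⟩ := exists_pair hd hw0
  have hfin : (∃ a' ∈ W, a' ⬝ᵥ J *ᵥ w = 1) → (⊤ : Submodule F (Fin N → F)) ≤ W := by
    rintro ⟨a', ha', h1⟩ v -
    have h2 : v - (v ⬝ᵥ J *ᵥ w) • a' ∈ W := by
      refine key w hw hw0 _ ?_
      rw [sub_dotProduct, smul_dotProduct, h1, smul_eq_mul, mul_one, sub_self]
    have h3 := W.add_mem h2 (W.smul_mem (v ⬝ᵥ J *ᵥ w) ha')
    rwa [sub_add_cancel] at h3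
  rcases hJ with ⟨hs, hN⟩ | hs
  · by_contra hcon
    -- the subspace is isotropic
    have hiso : ∀ u ∈ W, u ⬝ᵥ J *ᵥ u = 0 := by
      intro u hu
      by_contra hne
      have hu0 : u ≠ 0 := by
        rintro rfl
        exact hne (by rw [zero_dotProduct])
      apply hcon
      intro v _
      have h2 : v - (v ⬝ᵥ J *ᵥ u * (u ⬝ᵥ J *ᵥ u)⁻¹) • u ∈ W := by
        refine key u hu hu0 _ ?_
        rw [sub_dotProduct, smul_dotProduct, smul_eq_mul, mul_assoc, inv_mul_cancel₀ hne, mul_one,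
          sub_self]
      have h3 := W.add_mem h2 (W.smul_mem (v ⬝ᵥ J *ᵥ u * (u ⬝ᵥ J *ᵥ u)⁻¹) hu)
      rwa [sub_add_cancel] at h3
    have hbs : ∀ x y : Fin N → F, x ⬝ᵥ J *ᵥ y = y ⬝ᵥ J *ᵥ x := by
      intro x y
      have h1 := (bil_symm (ε := (1 : F)) (J := J) (by rw [one_smul]; exact hs) x y)
      rw [← h1.1, h1.2, one_mul]
    have hiso2 : ∀ u ∈ W, ∀ v ∈ W, u ⬝ᵥ J *ᵥ v = 0 := by
      intro u hu v hv
      have h1 := hiso (u + v) (W.add_mem hu hv)
      rw [add_dotProduct, mulVec_add, dotProduct_add, dotProduct_add, hiso u hu, hiso v hv,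
        hbs v u] at h1
      have h2 : (2 : F) * (u ⬝ᵥ J *ᵥ v) = 0 := by linear_combination h1
      exact (mul_eq_zero.1 h2).resolve_left two_ne_zero
    -- hence a line
    have hline : ∀ b ∈ W, b = (a ⬝ᵥ J *ᵥ b) • w := by
      intro b hb
      by_contra hne
      have h1 : b - (a ⬝ᵥ J *ᵥ b) • w ≠ 0 := sub_ne_zero.2 hne
      obtain ⟨u, hu⟩ := exists_pair hd h1
      have h2 : u - (u ⬝ᵥ J *ᵥ w) • a ∈ W := by
        refine key w hw hw0 _ ?_
        rw [sub_dotProduct, smul_dotProduct, ha, smul_eq_mul, mul_one, sub_self]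
      have h3 := hiso2 _ h2 b hb
      rw [sub_dotProduct, smul_dotProduct, smul_eq_mul] at h3
      rw [mulVec_sub, mulVec_smul, dotProduct_sub, dotProduct_smul, smul_eq_mul] at hu
      have h4 : (0 : F) = 1 := by linear_combination hu - h3
      exact zero_ne_one h4
    have hspan : (⊤ : Submodule F (Fin N → F)) ≤ Submodule.span F {w, a} := by
      intro v _
      have h2 : v - (v ⬝ᵥ J *ᵥ w) • a ∈ W := by
        refine key w hw hw0 _ ?_
        rw [sub_dotProduct, smul_dotProduct, ha, smul_eq_mul, mul_one, sub_self]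
      have h3 := hline _ h2
      have h4 : v = (a ⬝ᵥ J *ᵥ (v - (v ⬝ᵥ J *ᵥ w) • a)) • w + (v ⬝ᵥ J *ᵥ w) • a := by
        rw [← h3, sub_add_cancel]
      rw [h4]
      exact Submodule.add_mem _
        (Submodule.smul_mem _ _ (Submodule.subset_span (Set.mem_insert _ _)))
        (Submodule.smul_mem _ _ (Submodule.subset_span (Set.mem_insert_of_mem _ rfl)))
    have h5 := Submodule.finrank_mono hspan
    rw [finrank_top, Module.finrank_fin_fun] at h5
    have h6 : Module.finrank F (Submodule.span F ({w, a} : Set (Fin N → F))) ≤ 2 := by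
      classical
      have h7 := finrank_span_finset_le_card (R := F) ({w, a} : Finset (Fin N → F))
      have h8 : (((({w, a} : Finset (Fin N → F))) : Set (Fin N → F))) = {w, a} := by
        rw [Finset.coe_insert, Finset.coe_singleton]
      rw [h8] at h7
      exact h7.trans Finset.card_le_two
    omega
  · refine hfin ⟨a, ?_, ha⟩
    have hJ1 : Jᵀ = (-1 : F) • J := by rw [neg_one_smul]; exact hs
    have h1 := hW _ (rk_mem (ε := (-1 : F)) (by ring) hJ1 a a) w hw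
    rw [rk_mulVec, ha] at h1
    have h2 : (1 : F) • a - (-1 * 1 : F) • a = (2 : F) • a := by
      rw [← sub_smul]
      congr 1
      ring
    rw [h2] at h1
    have h3 := W.smul_mem (2⁻¹ : F) h1
    rwa [smul_smul, inv_mul_cancel₀ two_ne_zero, one_smul] at h3

/-- **the commutant of the Lie algebra is scalar** -/
theorem lie_comm (hJ : (Jᵀ = J ∧ 3 ≤ N) ∨ Jᵀ = -J) (hd : J.det ≠ 0)
    {A : Matrix (Fin N) (Fin N) F} (hA : ∀ X, SpLie J X → A * X = X * A) :
    ∃ c : F, A = c • (1 : Matrix (Fin N) (Fin N) F) := by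
  have hu : IsUnit J.det := isUnit_iff_ne_zero.2 hd
  obtain ⟨ε, hεε, hJε, hcase⟩ : ∃ ε : F, ε * ε = 1 ∧ Jᵀ = ε • J ∧ ((ε = 1 ∧ 3 ≤ N) ∨ ε = -1) := by
    rcases hJ with ⟨h, h3⟩ | h
    · exact ⟨1, one_mul 1, by rw [one_smul]; exact h, Or.inl ⟨rfl, h3⟩⟩
    · exact ⟨-1, by ring, by rw [neg_one_smul]; exact h, Or.inr rfl⟩
  have hinv : (J⁻¹)ᵀ = ε • J⁻¹ := by
    rw [transpose_nonsing_inv, hJε]
    apply inv_eq_left_inv
    rw [smul_mul_assoc, mul_smul_comm, smul_smul, hεε, one_smul, nonsing_inv_mul _ hu]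
  have hmem : ∀ S : Matrix (Fin N) (Fin N) F, Sᵀ = (-ε) • S → SpLie J (J⁻¹ * S) := by
    intro S hS
    unfold SpLie
    rw [transpose_mul, hinv, hS, smul_mul_assoc, mul_smul_comm, smul_mul_assoc, smul_mul_assoc,
      mul_assoc, nonsing_inv_mul _ hu, ← mul_assoc, mul_nonsing_inv _ hu, mul_one, one_mul,
      smul_smul]
    rw [neg_mul, hεε, neg_smul, one_smul, neg_add_cancel]
  set C : Matrix (Fin N) (Fin N) F := J * A * J⁻¹ with hC
  have hCS : ∀ S : Matrix (Fin N) (Fin N) F, Sᵀ = (-ε) • S → C * S = S * A := by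
    intro S hS
    have h1 := hA _ (hmem S hS)
    calc C * S = J * (A * (J⁻¹ * S)) := by rw [hC]; simp only [mul_assoc]
      _ = J * (J⁻¹ * S * A) := by rw [h1]
      _ = S * A := by rw [← mul_assoc, ← mul_assoc, mul_nonsing_inv _ hu, one_mul]
  have hE : ∀ i j : Fin N, C * (Matrix.single i j 1 - ε • Matrix.single j i 1) =
      (Matrix.single i j 1 - ε • Matrix.single j i 1) * A := by
    intro i j
    refine hCS _ ?_
    rw [transpose_sub, transpose_smul, transpose_single, transpose_single, smul_sub, smul_smul,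
      neg_mul, hεε, neg_smul, neg_smul, one_smul]
    abel
  have hent : ∀ i j k l : Fin N, C k i * (if j = l then 1 else 0) -
      ε * (C k j * (if i = l then 1 else 0)) =
      (if k = i then 1 else 0) * A j l - ε * ((if k = j then 1 else 0) * A i l) := by
    intro i j k l
    have h1 := congrFun (congrFun (hE i j) k) l
    rw [mul_sub, sub_mul, mul_smul_comm, smul_mul_assoc, Matrix.sub_apply, Matrix.sub_apply,
      Matrix.smul_apply, Matrix.smul_apply, smul_eq_mul, smul_eq_mul] at h1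
    have h2 : ∀ p q : Fin N, (C * Matrix.single p q (1 : F)) k l = C k p * (if q = l then 1 else 0) := by
      intro p q
      rw [Matrix.mul_apply, Finset.sum_eq_single p]
      · rw [Matrix.single_apply]
        by_cases hq : q = l
        · rw [if_pos ⟨rfl, hq⟩, if_pos hq]
        · rw [if_neg (fun h => hq h.2), if_neg hq]
      · intro x _ hx
        rw [Matrix.single_apply, if_neg (fun h => hx h.1.symm), mul_zero]
      · intro h; exact absurd (Finset.mem_univ _) h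
    have h3 : ∀ p q : Fin N, (Matrix.single p q (1 : F) * A) k l = (if k = p then 1 else 0) * A q l := by
      intro p q
      rw [Matrix.mul_apply, Finset.sum_eq_single q]
      · rw [Matrix.single_apply]
        by_cases hq : k = p
        · rw [if_pos ⟨hq.symm, rfl⟩, if_pos hq]
        · rw [if_neg (fun h => hq h.1.symm), if_neg hq]
      · intro x _ hx
        rw [Matrix.single_apply, if_neg (fun h => hx h.2.symm), zero_mul]
      · intro h; exact absurd (Finset.mem_univ _) h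
    rw [h2, h2, h3, h3] at h1
    exact h1
  rcases hcase with ⟨rfl, h3⟩ | rfl
  · -- symmetric
    have hthird : ∀ x y : Fin N, ∃ z, z ≠ x ∧ z ≠ y := by
      intro x y
      by_contra hcon
      push Not at hcon
      have h1 : (Finset.univ : Finset (Fin N)) ⊆ {x, y} := by
        intro z _
        by_cases hz : z = x
        · simp [hz]
        · simp [hcon z hz]
      have h2 := Finset.card_le_card h1
      rw [Finset.card_univ, Fintype.card_fin] at h2
      have h4 : ({x, y} : Finset (Fin N)).card ≤ 2 := Finset.card_le_two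
      omega
    have hoff : ∀ j l : Fin N, j ≠ l → A j l = 0 := by
      intro j l hjl
      obtain ⟨i, hij, hil⟩ := hthird j l
      have h1 := hent i j i l
      rw [if_neg hjl, if_neg hil, if_pos rfl, if_neg hij] at h1
      linear_combination -h1
    have hdiag : ∀ i j : Fin N, i ≠ j → C i i = A j j := by
      intro i j hij
      have h1 := hent i j i j
      rw [if_pos rfl, if_neg hij, if_pos rfl] at h1
      linear_combination h1
    have hall : ∀ j k : Fin N, A j j = A k k := by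
      intro j k
      obtain ⟨i, hij, hik⟩ := hthird j k
      rw [← hdiag i j hij, hdiag i k hik]
    have h0 : 0 < N := by omega
    refine ⟨A ⟨0, h0⟩ ⟨0, h0⟩, ?_⟩
    ext i j
    rw [Matrix.smul_apply, Matrix.one_apply, smul_eq_mul]
    by_cases hij : i = j
    · subst hij
      rw [if_pos rfl, mul_one]
      exact hall _ _
    · rw [if_neg hij, mul_zero]
      exact hoff i j hij
  · -- alternating
    have hoff : ∀ j l : Fin N, j ≠ l → A j l = 0 := by
      intro j l hjl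
      have h1 := hent j j j l
      rw [if_neg hjl, if_pos rfl] at h1
      have h2 : (2 : F) * A j l = 0 := by linear_combination -h1
      exact (mul_eq_zero.1 h2).resolve_left two_ne_zero
    have hdiag : ∀ i j : Fin N, C i i = A j j := by
      intro i j
      by_cases hij : i = j
      · subst hij
        have h1 := hent i i i i
        rw [if_pos rfl] at h1
        have h2 : (2 : F) * (C i i - A i i) = 0 := by linear_combination h1
        exact sub_eq_zero.1 ((mul_eq_zero.1 h2).resolve_left two_ne_zero)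
      · have h1 := hent i j i j
        rw [if_pos rfl, if_neg hij, if_pos rfl] at h1
        linear_combination h1
    rcases Nat.eq_zero_or_pos N with h0 | h0
    · subst h0
      exact ⟨0, by ext i; exact i.elim0⟩
    refine ⟨A ⟨0, h0⟩ ⟨0, h0⟩, ?_⟩
    ext i j
    rw [Matrix.smul_apply, Matrix.one_apply, smul_eq_mul]
    by_cases hij : i = j
    · subst hij
      rw [if_pos rfl, mul_one, ← hdiag i i, hdiag i ⟨0, h0⟩]
    · rw [if_neg hij, mul_zero]
      exact hoff i j hij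

end lie

section full

variable {ℓ : ℕ} [hℓ : Fact ℓ.Prime] {N : ℕ} {G : Type} [Group G]
  {ρ : G →* Matrix (Fin N) (Fin N) ℚ_[ℓ]} {J : Matrix (Fin N) (Fin N) ℚ_[ℓ]}

theorem tangent_stable {X : Matrix (Fin N) (Fin N) ℚ_[ℓ]} (hX : IsTangent ℓ ρ X)
    (W : Submodule ℚ_[ℓ] (Fin N → ℚ_[ℓ])) (hW : ∀ σ, ∀ w ∈ W, ρ σ *ᵥ w ∈ W) :
    ∀ w ∈ W, X *ᵥ w ∈ W := by
  intro w hw
  obtain ⟨σ, hσ⟩ := hX
  have hc : IsClosed (W : Set (Fin N → ℚ_[ℓ])) := W.closed_of_finiteDimensional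
  have h1 : Tendsto (fun n : ℕ => (((ℓ : ℚ_[ℓ]) ^ n)⁻¹ • (ρ (σ n) - 1)) *ᵥ w) atTop
      (𝓝 (X *ᵥ w)) :=
    ((continuous_id.matrix_mulVec continuous_const).tendsto X).comp hσ
  refine hc.mem_of_tendsto h1 (Eventually.of_forall fun n => ?_)
  show _ ∈ W
  rw [smul_mulVec, sub_mulVec, one_mulVec]
  exact W.smul_mem _ (W.sub_mem (hW _ _ hw) hw)

theorem ss_of_full (hJ : (Jᵀ = J ∧ 3 ≤ N) ∨ Jᵀ = -J) (hd : J.det ≠ 0)
    (hfull : ∀ X, SpLie J X → IsTangent ℓ ρ X) : SS ρ := by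
  intro W hW
  rcases lie_irr hJ hd W (fun X hX => tangent_stable (hfull X hX) W hW) with rfl | rfl
  · exact ⟨⊤, isCompl_bot_top, fun _ _ _ => trivial⟩
  · refine ⟨⊥, isCompl_top_bot, fun σ w hw => ?_⟩
    rw [Submodule.mem_bot] at hw ⊢
    rw [hw, mulVec_zero]

theorem tangent_comm {X A : Matrix (Fin N) (Fin N) ℚ_[ℓ]} (hX : IsTangent ℓ ρ X)
    (hA : ∀ σ, A * ρ σ = ρ σ * A) : A * X = X * A := by
  obtain ⟨σ, hσ⟩ := hX
  haveI : T2Space (Matrix (Fin N) (Fin N) ℚ_[ℓ]) := inferInstanceAs (T2Space (Fin N → Fin N → ℚ_[ℓ]))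
  have h1 : Tendsto (fun n : ℕ => A * (((ℓ : ℚ_[ℓ]) ^ n)⁻¹ • (ρ (σ n) - 1))) atTop
      (𝓝 (A * X)) := ((continuous_const.matrix_mul continuous_id).tendsto X).comp hσ
  have h2 : Tendsto (fun n : ℕ => (((ℓ : ℚ_[ℓ]) ^ n)⁻¹ • (ρ (σ n) - 1)) * A) atTop
      (𝓝 (X * A)) := ((continuous_id.matrix_mul continuous_const).tendsto X).comp hσ
  have h3 : (fun n : ℕ => A * (((ℓ : ℚ_[ℓ]) ^ n)⁻¹ • (ρ (σ n) - 1))) =
      fun n : ℕ => (((ℓ : ℚ_[ℓ]) ^ n)⁻¹ • (ρ (σ n) - 1)) * A := by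
    funext n
    rw [mul_smul_comm, smul_mul_assoc, mul_sub, sub_mul, hA, mul_one, one_mul]
  rw [h3] at h1
  exact tendsto_nhds_unique h1 h2

end full

section joint

variable {ℓ : ℕ} [hℓ : Fact ℓ.Prime] {ι : Type} [Fintype ι] [DecidableEq ι] {n : ι → ℕ}
  {G : Type} [Group G] [TopologicalSpace G] [IsTopologicalGroup G] [CompactSpace G]
  {ρ : ∀ i, G →* Matrix (Fin (n i)) (Fin (n i)) ℚ_[ℓ]}
  {J : ∀ i, Matrix (Fin (n i)) (Fin (n i)) ℚ_[ℓ]}

theorem form3 {N : ℕ} {J : Matrix (Fin N) (Fin N) ℚ_[ℓ]} (h : IsForm J) :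
    (Jᵀ = J ∧ 3 ≤ N) ∨ Jᵀ = -J := by
  rcases h.1 with ⟨h1, h2⟩ | h1
  · exact Or.inl ⟨h1, by omega⟩
  · exact Or.inr h1

theorem sc_of_joint (hρ : ∀ i, Continuous (ρ i)) (hJ : ∀ i, IsForm (J i))
    (hfull : ∀ X, (∀ i, SpLie (J i) (X i)) → JTan ℓ ρ X) (i : ι) : SC (ρ i) := by
  intro A U hU hA
  have hfullU : ∀ X, (∀ i, SpLie (J i) (X i)) → JTan ℓ (fun i => (ρ i).comp U.subtype) X :=
    fun X hX => Pool.Agent.R932.PO.joint_comp hρ hU (fun γ hγ => ⟨⟨γ, hγ⟩, fun i => rfl⟩)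
      (hfull X hX)
  refine lie_comm (form3 (hJ i)) (hJ i).2 fun X hX => ?_
  exact tangent_comm (ρ := (ρ i).comp U.subtype)
    (Pool.Agent.R932.PO.one_of_joint (ρ := fun i => (ρ i).comp U.subtype) hfullU i X hX)
    fun σ => hA σ.1 σ.2

theorem ss_of_joint (hJ : ∀ i, IsForm (J i))
    (hfull : ∀ X, (∀ i, SpLie (J i) (X i)) → JTan ℓ ρ X) (i : ι) : SS (ρ i) :=
  ss_of_full (form3 (hJ i)) (hJ i).2
    (Pool.Agent.R932.PO.one_of_joint hfull i)

end joint

end Pool.Agent.T2H36.MG
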