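import Pool.Agent.T2H36.MG.H2

set_option autoImplicit false
set_option linter.unusedSectionVars false
set_option linter.style.haveILetI false

/-!
Project MG, part 3: the Galois side.
-/

open MvPolynomial Matrix
open Pool.Agent.Y95.MT
open Pool.Agent.Y142.ZS (Sim SpLie)
open Pool.Agent.R932.PO (JTan IsForm Kind Fits Allows Sys JL det_map_ne)
open Pool.Agent.R932.GR (Pf evf Lc up ZarF)

namespace Pool.Agent.T2H36.MG

noncomputable section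

/-- a homomorphism with finitely many values is trivial on a subgroup of finite index -/
theorem fin_ker {G M : Type} [Group G] [Monoid M] (φ : G →* M) (h : (Set.range φ).Finite) :
    φ.toHomUnits.ker.FiniteIndex := by
  have h2 : Finite φ.toHomUnits.range := by
    have h3 : Set.MapsTo (fun u : Mˣ => (u : M)) (φ.toHomUnits.range : Set Mˣ) (Set.range φ) := by
      rintro _ ⟨s, rfl⟩
      exact ⟨s, (MonoidHom.coe_toHomUnits φ s).symm⟩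
    exact h.of_injOn h3 (fun x _ y _ hxy => Units.ext hxy)
  infer_instance

theorem mem_ker' {G M : Type} [Group G] [Monoid M] {φ : G →* M} {s : G}
    (h : s ∈ φ.toHomUnits.ker) : φ s = 1 := by
  rwa [MonoidHom.mem_ker, Units.ext_iff, MonoidHom.coe_toHomUnits] at h

variable {κ : Type} [Fintype κ] [DecidableEq κ] {ι : Type} [Fintype ι] [DecidableEq ι] {n : ι → ℕ}
  {Q : ∀ i, Matrix (Fin (n i)) (Fin (n i)) ℚ} {e : ι → ℕ}
  {ℓ : ℕ} [hp : Fact ℓ.Prime] {Γ : Type} [Group Γ]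

/-- the representation on `N ⊕ (sum of the V_i)` -/
def tot' (α : Γ →* Matrix κ κ ℚ_[ℓ]) (ρ : ∀ i, Γ →* Matrix (Fin (n i)) (Fin (n i)) ℚ_[ℓ]) :
    Γ →* Matrix (κ ⊕ Σ i, Fin (n i)) (κ ⊕ Σ i, Fin (n i)) ℚ_[ℓ] where
  toFun σ := fromBlocks (α σ) 0 0 (blockDiagonal' fun i => ρ i σ)
  map_one' := by
    rw [map_one]
    have h1 : (fun i => ρ i 1) = fun i => (1 : Matrix (Fin (n i)) (Fin (n i)) ℚ_[ℓ]) := by
      funext i
      rw [map_one]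
    rw [h1]
    exact emb_one
  map_mul' a b := by
    rw [fromBlocks_multiply, ← blockDiagonal'_mul]
    simp only [map_mul, Matrix.mul_zero, Matrix.zero_mul, add_zero, zero_add]

theorem tot'_apply (α : Γ →* Matrix κ κ ℚ_[ℓ])
    (ρ : ∀ i, Γ →* Matrix (Fin (n i)) (Fin (n i)) ℚ_[ℓ]) (σ : Γ) :
    tot' α ρ σ = fromBlocks (α σ) 0 0 (blockDiagonal' fun i => ρ i σ) := rfl

theorem tot'_emb {α : Γ →* Matrix κ κ ℚ_[ℓ]}
    {ρ : ∀ i, Γ →* Matrix (Fin (n i)) (Fin (n i)) ℚ_[ℓ]} {σ : Γ} (h : α σ = 1) :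
    tot' α ρ σ = emb κ fun i => ρ i σ := by
  rw [tot'_apply, h]
  rfl

/-- pull back of polynomials to the families -/
def dn (κ : Type) [DecidableEq κ] {ι : Type} [DecidableEq ι] {n : ι → ℕ} {F : Type} [Field F] :
    MvPolynomial ((κ ⊕ Σ i, Fin (n i)) × (κ ⊕ Σ i, Fin (n i))) F →ₐ[F] Pf F n :=
  aeval fun q => (emb κ fun i => Matrix.of fun a b =>
    (X (⟨i, a, b⟩ : Σ i, Fin (n i) × Fin (n i)) : Pf F n)) q.1 q.2

theorem evf_dn {F : Type} [Field F] (A : ∀ i, Matrix (Fin (n i)) (Fin (n i)) F)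
    (f : MvPolynomial ((κ ⊕ Σ i, Fin (n i)) × (κ ⊕ Σ i, Fin (n i))) F) :
    evf A (dn κ f) = aeval (fun q => (emb κ A) q.1 q.2) f := by
  have h0 : (emb κ fun i => Matrix.of fun a b =>
      (X (⟨i, a, b⟩ : Σ i, Fin (n i) × Fin (n i)) : Pf F n)).map (evf A) = emb κ A := by
    rw [emb_map]
    congr 1
    funext i
    ext a b
    simp [evf]
  have h1 : (evf A).comp ((dn κ : _ →ₐ[F] Pf F n) : _ →+* Pf F n) =
      (((aeval (fun q : (κ ⊕ Σ i, Fin (n i)) × (κ ⊕ Σ i, Fin (n i)) => (emb κ A) q.1 q.2) :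
        MvPolynomial ((κ ⊕ Σ i, Fin (n i)) × (κ ⊕ Σ i, Fin (n i))) F →ₐ[F] F)) :
        MvPolynomial ((κ ⊕ Σ i, Fin (n i)) × (κ ⊕ Σ i, Fin (n i))) F →+* F) := by
    refine MvPolynomial.ringHom_ext (fun r => ?_) (fun x => ?_)
    · simp [dn, evf]
    · have h2 := congrFun (congrFun h0 x.1) x.2
      rw [Matrix.map_apply] at h2
      rw [RingHom.comp_apply, RingHom.coe_coe, RingHom.coe_coe, aeval_X, ← h2]
      unfold dn
      rw [aeval_X]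
  exact congrFun (congrArg DFunLike.coe h1) f

theorem lift_eval {g : Matrix (κ ⊕ Σ i, Fin (n i)) (κ ⊕ Σ i, Fin (n i)) (Lc ℓ)}
    {t : ∀ i, Matrix (Fin (n i)) (Fin (n i)) ℚ_[ℓ]}
    (h : ∀ i a b, g (Sum.inr ⟨i, a⟩) (Sum.inr ⟨i, b⟩) = algebraMap ℚ_[ℓ] (Lc ℓ) (t i a b))
    (f : Pf ℚ_[ℓ] n) :
    aeval (fun q : (κ ⊕ Σ i, Fin (n i)) × (κ ⊕ Σ i, Fin (n i)) => g q.1 q.2)
      (MvPolynomial.eval₂Hom (MvPolynomial.C.comp (algebraMap ℚ_[ℓ] (Lc ℓ)))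
        (fun x : (Σ i, Fin (n i) × Fin (n i)) =>
          (X (Sum.inr ⟨x.1, x.2.1⟩, Sum.inr ⟨x.1, x.2.2⟩) :
            MvPolynomial ((κ ⊕ Σ i, Fin (n i)) × (κ ⊕ Σ i, Fin (n i))) (Lc ℓ))) f) =
      algebraMap ℚ_[ℓ] (Lc ℓ) (evf t f) := by
  have h1 : ((aeval (fun q : (κ ⊕ Σ i, Fin (n i)) × (κ ⊕ Σ i, Fin (n i)) => g q.1 q.2) :
      MvPolynomial ((κ ⊕ Σ i, Fin (n i)) × (κ ⊕ Σ i, Fin (n i))) (Lc ℓ) →ₐ[Lc ℓ]
        Lc ℓ) : _ →+* _).comp (MvPolynomial.eval₂Hom (MvPolynomial.C.comp (algebraMap ℚ_[ℓ] (Lc ℓ)))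
        (fun x : (Σ i, Fin (n i) × Fin (n i)) =>
          (X (Sum.inr ⟨x.1, x.2.1⟩, Sum.inr ⟨x.1, x.2.2⟩) :
            MvPolynomial ((κ ⊕ Σ i, Fin (n i)) × (κ ⊕ Σ i, Fin (n i))) (Lc ℓ)))) =
      (algebraMap ℚ_[ℓ] (Lc ℓ)).comp (evf t) := by
    refine MvPolynomial.ringHom_ext (fun r => ?_) (fun x => ?_)
    · simp [evf]
    · simp [evf, h]
  exact congrFun (congrArg DFunLike.coe h1) f

theorem toK_eval (g : Matrix (κ ⊕ Σ i, Fin (n i)) (κ ⊕ Σ i, Fin (n i)) (Lc ℓ))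
    (f : MvPolynomial ((κ ⊕ Σ i, Fin (n i)) × (κ ⊕ Σ i, Fin (n i))) ℚ) :
    aeval (fun q : (κ ⊕ Σ i, Fin (n i)) × (κ ⊕ Σ i, Fin (n i)) => g q.1 q.2)
      (MvPolynomial.map (algebraMap ℚ (Lc ℓ)) f) = vQ g f := by
  unfold vQ
  rw [aeval_map_algebraMap]

section group

variable [TopologicalSpace Γ] [IsTopologicalGroup Γ] [CompactSpace Γ]
  {α : Γ →* Matrix κ κ ℚ_[ℓ]} {ρ : ∀ i, Γ →* Matrix (Fin (n i)) (Fin (n i)) ℚ_[ℓ]}

theorem jl_lc (i : ι) : (JL Q ℓ i).map (algebraMap ℚ_[ℓ] (Lc ℓ)) =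
    (Q i).map (algebraMap ℚ (Lc ℓ)) := by
  ext a b
  simp

/-- **the identity component of the Zariski closure of the Galois image** -/
theorem gal_iff (he1 : ∀ i, e i = 0 ∨ e i = 1) (he : ∀ i, e i = 0 ∨ (Q i)ᵀ = -Q i)
    (hw : ∀ i, (Q i)ᵀ = Q i → e i = 0)
    (hJ : ∀ i, IsForm (JL Q ℓ i)) (hQ : ∀ i, (Q i).det ≠ 0) (hn : ∀ i, 0 < n i)
    (hρ : ∀ i, Continuous (ρ i)) {χ : Γ →* ℚ_[ℓ]}
    (hmult : ∀ i g, Sim (JL Q ℓ i) (ρ i g) (χ g ^ e i)) (hχ : ∃ σ, ∀ k : ℕ, 0 < k → χ σ ^ k ≠ 1)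
    (hα : (Set.range α).Finite)
    (hfull : ∀ X, (∀ i, SpLie (JL Q ℓ i) (X i)) → JTan ℓ ρ X)
    {g : Matrix (κ ⊕ Σ i, Fin (n i)) (κ ⊕ Σ i, Fin (n i)) (Lc ℓ)} (hg : g.det ≠ 0) :
    InG0 (tot' α ρ) g ↔ InG κ Q e g := by
  classical
  have hwL : ∀ i, (JL Q ℓ i)ᵀ = JL Q ℓ i → e i = 0 := by
    intro i h
    refine hw i ?_
    ext p q
    have h1 := congrFun (congrFun h p) q
    exact (algebraMap ℚ ℚ_[ℓ]).injective h1
  have hχ0 : ∀ σ, χ σ ≠ 0 := by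
    intro σ h
    have h1 : χ σ * χ σ⁻¹ = 1 := by rw [← map_mul, mul_inv_cancel, map_one]
    rw [h, zero_mul] at h1
    exact zero_ne_one h1
  constructor
  · intro h
    refine (inG_iff he1 hQ hn hg).2 fun f hf => ?_
    rw [← toK_eval]
    -- the subgroup
    let δ : ∀ i, Γ →* ℚ_[ℓ] := fun i =>
      (Matrix.detMonoidHom : Matrix (Fin (n i)) (Fin (n i)) ℚ_[ℓ] →* ℚ_[ℓ]).comp (ρ i)
    have hδ : ∀ i, e i = 0 → (Set.range (δ i)).Finite := by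
      intro i hi
      refine (Set.toFinite ({1, -1} : Set ℚ_[ℓ])).subset ?_
      rintro _ ⟨σ, rfl⟩
      have h1 := hmult i σ
      rw [hi, pow_zero, sim_one] at h1
      have h2 := congrArg Matrix.det h1
      rw [det_mul, det_mul, det_transpose] at h2
      have h4 : (ρ i σ).det * (ρ i σ).det = 1 := by
        have h5 : (JL Q ℓ i).det * ((ρ i σ).det * (ρ i σ).det - 1) = 0 := by
          linear_combination h2
        exact sub_eq_zero.1 ((mul_eq_zero.1 h5).resolve_left (hJ i).2)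
      exact mul_self_eq_one_iff.1 h4
    let Δ₀ : Subgroup Γ := ⨅ i : {i : ι // e i = 0}, (δ i.1).toHomUnits.ker
    have hΔ₀ : Δ₀.FiniteIndex := by
      haveI : ∀ i : {i : ι // e i = 0}, (δ i.1).toHomUnits.ker.FiniteIndex := fun i =>
        fin_ker (δ i.1) (hδ i.1 i.2)
      exact Subgroup.finiteIndex_iInf this
    let Δ : Subgroup Γ := α.toHomUnits.ker ⊓ Δ₀
    have hΔ : Δ.FiniteIndex := by
      haveI := fin_ker α hα
      exact inferInstanceAs (α.toHomUnits.ker ⊓ Δ₀).FiniteIndex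
    refine h _ ⟨Δ, hΔ, fun σ hσ => ?_⟩
    have h1 : α σ = 1 := mem_ker' hσ.1
    have h2 : ∀ i, e i = 0 → (ρ i σ).det = 1 := fun i hi => by
      have h3 : σ ∈ Δ₀ := hσ.2
      exact mem_ker' ((Subgroup.mem_iInf.1 h3) ⟨i, hi⟩)
    have h3 : InG κ Q e ((tot' α ρ σ).map (algebraMap ℚ_[ℓ] (Lc ℓ))) := by
      refine InG.map _ ?_
      exact ⟨fun i => ρ i σ, χ σ, hχ0 σ, tot'_emb h1, fun i => ⟨hmult i σ, h2 i⟩⟩
    have h4 := (inG_iff he1 hQ hn (InG.det_ne hQ h3)).1 h3 f hf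
    rw [← toK_eval] at h4
    exact h4
  · rintro ⟨t, m, hm, rfl, ht⟩ f ⟨Δ, hΔ, hf⟩
    obtain ⟨s, hs⟩ := IsAlgClosed.exists_pow_nat_eq m (by norm_num : 0 < 2)
    obtain ⟨h2, h3, h4, h5⟩ := norm_fam hQ he hm hs ht
    let Δ' : Subgroup Γ := Δ ⊓ α.toHomUnits.ker
    have hΔ' : Δ'.FiniteIndex := by
      haveI := fin_ker α hα
      exact inferInstanceAs (Δ ⊓ α.toHomUnits.ker).FiniteIndex
    have h6 := Pool.Agent.R932.GR.core hρ hJ hwL hmult hχ hfull (f := dn κ f) (Δ := Δ') hΔ'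
      (fun σ hσ => by
        have h7 : α σ = 1 := mem_ker' hσ.2
        rw [evf_dn]
        have h8 := hf σ hσ.1
        have h9 : (emb κ (up fun i => ρ i σ)) = (tot' α ρ σ).map (algebraMap ℚ_[ℓ] (Lc ℓ)) := by
          rw [tot'_emb h7, emb_map]
          rfl
        rw [h9]
        exact h8) (x := fun i => (s⁻¹) ^ e i • t i)
      (fun i => by
        have h7 := h2 i
        rw [← jl_lc (ℓ := ℓ)] at h7
        exact h7) h3 s
    have h7 : (fun i => s ^ e i • ((s⁻¹) ^ e i • t i)) = t := funext h5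
    rw [h7, evf_dn] at h6
    exact h6

/-- **the Mumford-Tate conjecture from the full joint Lie algebra** -/
theorem mtc_of_full {h : ℂ → Matrix (κ ⊕ Σ i, Fin (n i)) (κ ⊕ Σ i, Fin (n i)) ℂ}
    (he1 : ∀ i, e i = 0 ∨ e i = 1) (he : ∀ i, e i = 0 ∨ (Q i)ᵀ = -Q i)
    (hw : ∀ i, (Q i)ᵀ = Q i → e i = 0)
    (hJ : ∀ i, IsForm (JL Q ℓ i)) (hQ : ∀ i, (Q i).det ≠ 0) (hn : ∀ i, 0 < n i)
    (hh : Hod κ Q e h) (hb : Big κ Q h)
    (hρ : ∀ i, Continuous (ρ i)) {χ : Γ →* ℚ_[ℓ]}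
    (hmult : ∀ i g, Sim (JL Q ℓ i) (ρ i g) (χ g ^ e i)) (hχ : ∃ σ, ∀ k : ℕ, 0 < k → χ σ ^ k ≠ 1)
    (hα : (Set.range α).Finite)
    (hfull : ∀ X, (∀ i, SpLie (JL Q ℓ i) (X i)) → JTan ℓ ρ X) : MTC h (tot' α ρ) := by
  obtain ⟨ε⟩ := exists_emb ℓ
  intro g hg
  rw [gal_iff he1 he hw hJ hQ hn hρ hmult hχ hα hfull hg, inMT_iff he1 he hQ hn hh hb ε hg]

/-- **the full joint Lie algebra from the Mumford-Tate conjecture** -/
theorem full_of_mtc' {h : ℂ → Matrix (κ ⊕ Σ i, Fin (n i)) (κ ⊕ Σ i, Fin (n i)) ℂ}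
    (he1 : ∀ i, e i = 0 ∨ e i = 1) (he : ∀ i, e i = 0 ∨ (Q i)ᵀ = -Q i)
    (hJ : ∀ i, IsForm (JL Q ℓ i)) (hQ : ∀ i, (Q i).det ≠ 0) (hn : ∀ i, 0 < n i)
    (hh : Hod κ Q e h) (hb : Big κ Q h)
    (hρ : ∀ i, Continuous (ρ i)) (hsim : ∀ i g, ∃ c, Sim (JL Q ℓ i) (ρ i g) c)
    (hmt : MTC h (tot' α ρ))
    (X : ∀ i, Matrix (Fin (n i)) (Fin (n i)) ℚ_[ℓ]) (hX : ∀ i, SpLie (JL Q ℓ i) (X i)) :
    JTan ℓ ρ X := by
  classical
  obtain ⟨ε⟩ := exists_emb ℓ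
  have hZ : ZarF ρ (fun i => JL Q ℓ i) := by
    rintro f ⟨Δ, hΔ, hf⟩ t ht htd
    have h1 : InG κ Q e (emb κ fun i => (t i).map (algebraMap ℚ_[ℓ] (Lc ℓ))) := by
      refine ⟨_, 1, one_ne_zero, rfl, fun i => ⟨?_, fun _ => ?_⟩⟩
      · rw [one_pow, sim_one, ← jl_lc (ℓ := ℓ), ← Matrix.transpose_map, ← Matrix.map_mul,
          ← Matrix.map_mul, ht i]
      · have h2 := (algebraMap ℚ_[ℓ] (Lc ℓ)).map_det (t i)
        rw [RingHom.mapMatrix_apply] at h2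
        rw [← h2, htd i, map_one]
    have h2 := (hmt _ (InG.det_ne hQ h1)).2
      ((inMT_iff he1 he hQ hn hh hb ε (InG.det_ne hQ h1)).2 h1)
    have h3 := h2 _ ⟨Δ, hΔ, fun σ hσ => by
      have h4 := lift_eval (κ := κ) (g := (tot' α ρ σ).map (algebraMap ℚ_[ℓ] (Lc ℓ)))
        (t := fun i => ρ i σ) (fun i a b => by
          rw [Matrix.map_apply, tot'_apply, fromBlocks_apply₂₂, blockDiagonal'_apply_eq]) f
      rw [hf σ hσ, map_zero] at h4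
      exact h4⟩
    have h4 := lift_eval (κ := κ) (g := emb κ fun i => (t i).map (algebraMap ℚ_[ℓ] (Lc ℓ)))
      (t := t) (fun i a b => by
        show blockDiagonal' (fun i => (t i).map (algebraMap ℚ_[ℓ] (Lc ℓ))) ⟨i, a⟩ ⟨i, b⟩ = _
        rw [blockDiagonal'_apply_eq, Matrix.map_apply]) f
    rw [h3] at h4
    exact (map_eq_zero _).1 h4.symm
  exact Pool.Agent.R932.GR.joint_of_zar hρ hJ hn hsim hZ X hX

end group

end

end Pool.Agent.T2H36.MG
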