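import Pool.Agent.Y95.MT.Main
import Pool.Agent.R932.GR.Main

set_option autoImplicit false
set_option linter.unusedSectionVars false
set_option linter.style.haveILetI false

/-!
Project MG, part 1: the Mumford-Tate group of a sum of symplectic and orthogonal pieces, as large as
possible.
-/

open MvPolynomial Matrix
open Pool.Agent.Y95.MT
open Pool.Agent.Y142.ZS (Sim)

namespace Pool.Agent.T2H36.MG

noncomputable section

variable {κ : Type} [Fintype κ] [DecidableEq κ] {ι : Type} [Fintype ι] [DecidableEq ι] {n : ι → ℕ}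

/-- a family of matrices as a block diagonal matrix, with the identity on the first part -/
def emb (κ : Type) [DecidableEq κ] {ι : Type} [DecidableEq ι] {n : ι → ℕ} {R : Type} [Zero R] [One R]
    (t : ∀ i, Matrix (Fin (n i)) (Fin (n i)) R) :
    Matrix (κ ⊕ Σ i, Fin (n i)) (κ ⊕ Σ i, Fin (n i)) R :=
  fromBlocks 1 0 0 (blockDiagonal' t)

/-- the blocks of a matrix -/
def blk {R : Type} (g : Matrix (κ ⊕ Σ i, Fin (n i)) (κ ⊕ Σ i, Fin (n i)) R) (i : ι) :
    Matrix (Fin (n i)) (Fin (n i)) R :=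
  of fun a b => g (Sum.inr ⟨i, a⟩) (Sum.inr ⟨i, b⟩)

theorem blk_emb {R : Type} [Zero R] [One R] (t : ∀ i, Matrix (Fin (n i)) (Fin (n i)) R) (i : ι) :
    blk (emb κ t) i = t i := by
  ext a b
  unfold blk emb
  rw [of_apply, fromBlocks_apply₂₂, blockDiagonal'_apply_eq]

theorem emb_mul {R : Type} [CommRing R] (s t : ∀ i, Matrix (Fin (n i)) (Fin (n i)) R) :
    emb κ s * emb κ t = emb κ fun i => s i * t i := by
  unfold emb
  rw [fromBlocks_multiply, ← blockDiagonal'_mul]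
  simp

theorem emb_one {R : Type} [CommRing R] :
    emb κ (fun i => (1 : Matrix (Fin (n i)) (Fin (n i)) R)) = 1 := by
  unfold emb
  have h1 : (blockDiagonal' fun i => (1 : Matrix (Fin (n i)) (Fin (n i)) R)) = 1 :=
    blockDiagonal'_one
  rw [h1, fromBlocks_one]

theorem emb_map {R R' : Type} [CommRing R] [CommRing R'] (φ : R →+* R')
    (t : ∀ i, Matrix (Fin (n i)) (Fin (n i)) R) :
    (emb κ t).map φ = emb κ fun i => (t i).map φ := by
  unfold emb
  rw [fromBlocks_map, blockDiagonal'_map _ _ (map_zero φ)]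
  simp

theorem emb_det_ne {F : Type} [Field F] {t : ∀ i, Matrix (Fin (n i)) (Fin (n i)) F}
    (ht : ∀ i, (t i).det ≠ 0) : (emb κ t).det ≠ 0 := by
  have h1 : emb κ t * emb κ (fun i => (t i)⁻¹) = 1 := by
    rw [emb_mul, ← emb_one (κ := κ) (n := n) (R := F)]
    congr 1
    funext i
    exact Matrix.mul_nonsing_inv _ (isUnit_iff_ne_zero.2 (ht i))
  intro h
  have h2 := congrArg Matrix.det h1
  rw [det_mul, h, zero_mul, det_one] at h2
  exact zero_ne_one h2

theorem emb_inv {F : Type} [Field F] {t : ∀ i, Matrix (Fin (n i)) (Fin (n i)) F}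
    (ht : ∀ i, (t i).det ≠ 0) : (emb κ t)⁻¹ = emb κ fun i => (t i)⁻¹ := by
  refine Matrix.inv_eq_right_inv ?_
  rw [emb_mul, ← emb_one (κ := κ) (n := n) (R := F)]
  congr 1
  funext i
  exact Matrix.mul_nonsing_inv _ (isUnit_iff_ne_zero.2 (ht i))

theorem blk_det_ne {F : Type} [Field F] {t : ∀ i, Matrix (Fin (n i)) (Fin (n i)) F}
    (h : (emb κ t).det ≠ 0) (i : ι) : (t i).det ≠ 0 := by
  intro h0
  obtain ⟨v, hv, hv0⟩ := Matrix.exists_mulVec_eq_zero_iff.2 h0
  apply h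
  rw [← Matrix.exists_mulVec_eq_zero_iff]
  refine ⟨Sum.elim 0 fun x => if h : x.1 = i then v (h ▸ x.2) else 0, ?_, ?_⟩
  · intro h1
    apply hv
    ext a
    have h2 := congrFun h1 (Sum.inr ⟨i, a⟩)
    simpa using h2
  · unfold emb
    rw [fromBlocks_mulVec]
    ext x
    rcases x with x | ⟨j, a⟩
    · simp
    · simp only [Sum.elim_comp_inl, Sum.elim_comp_inr, mulVec_zero, zero_add, zero_mulVec,
        Sum.elim_inr, Pi.zero_apply]
      show (blockDiagonal' t *ᵥ _) ⟨j, a⟩ = 0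
      rw [mulVec, dotProduct, Fintype.sum_sigma]
      by_cases hj : j = i
      · subst hj
        rw [Finset.sum_eq_single j]
        · have h3 := congrFun hv0 a
          rw [mulVec, dotProduct] at h3
          simp only [blockDiagonal'_apply_eq, dite_true]
          exact h3
        · intro b _ hb
          refine Finset.sum_eq_zero fun x _ => ?_
          rw [blockDiagonal'_apply_ne _ _ _ (Ne.symm hb), zero_mul]
        · intro h; exact absurd (Finset.mem_univ _) h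
      · refine Finset.sum_eq_zero fun b _ => Finset.sum_eq_zero fun x _ => ?_
        by_cases hb : b = i
        · subst hb
          rw [blockDiagonal'_apply_ne _ _ _ hj, zero_mul]
        · rw [dif_neg hb, mul_zero]

/-- the group of the similitudes with a common multiplier on the symplectic parts (`e i = 1`), and
isometries of determinant one on the orthogonal parts (`e i = 0`) -/
def InG (κ : Type) [DecidableEq κ] (Q : ∀ i, Matrix (Fin (n i)) (Fin (n i)) ℚ) (e : ι → ℕ) {R : Type}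
    [Field R] [Algebra ℚ R] (g : Matrix (κ ⊕ Σ i, Fin (n i)) (κ ⊕ Σ i, Fin (n i)) R) : Prop :=
  ∃ (t : ∀ i, Matrix (Fin (n i)) (Fin (n i)) R) (m : R), m ≠ 0 ∧ g = emb κ t ∧
    ∀ i, Sim ((Q i).map (algebraMap ℚ R)) (t i) (m ^ e i) ∧ (e i = 0 → (t i).det = 1)

variable {Q : ∀ i, Matrix (Fin (n i)) (Fin (n i)) ℚ} {e : ι → ℕ}

theorem qmap_det {F : Type} [Field F] [Algebra ℚ F] {m : ℕ} {A : Matrix (Fin m) (Fin m) ℚ}
    (h : A.det ≠ 0) : (A.map (algebraMap ℚ F)).det ≠ 0 := by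
  have h1 : (A.map (algebraMap ℚ F)).det = algebraMap ℚ F A.det := by
    rw [RingHom.map_det, RingHom.mapMatrix_apply]
  rw [h1]
  exact (map_ne_zero _).2 h

theorem sim_det_ne {F : Type} [Field F] {m : ℕ} {J g : Matrix (Fin m) (Fin m) F} {c : F}
    (hJ : J.det ≠ 0) (hc : c ≠ 0) (h : Sim J g c) : g.det ≠ 0 := by
  intro h0
  have h1 := congrArg Matrix.det h
  rw [det_mul, h0, mul_zero, det_smul] at h1
  exact mul_ne_zero (pow_ne_zero _ hc) hJ h1.symm

theorem InG.det_ne {R : Type} [Field R] [Algebra ℚ R] (hQ : ∀ i, (Q i).det ≠ 0)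
    {g : Matrix (κ ⊕ Σ i, Fin (n i)) (κ ⊕ Σ i, Fin (n i)) R} (h : InG κ Q e g) : g.det ≠ 0 := by
  obtain ⟨t, m, hm, rfl, ht⟩ := h
  exact emb_det_ne fun i => sim_det_ne (qmap_det (hQ i)) (pow_ne_zero _ hm) (ht i).1

theorem InG.map {R R' : Type} [Field R] [Algebra ℚ R] [Field R'] [Algebra ℚ R'] (φ : R →+* R')
    {g : Matrix (κ ⊕ Σ i, Fin (n i)) (κ ⊕ Σ i, Fin (n i)) R} (h : InG κ Q e g) :
    InG κ Q e (g.map φ) := by
  obtain ⟨t, m, hm, rfl, ht⟩ := h
  refine ⟨fun i => (t i).map φ, φ m, (map_ne_zero _).2 hm, emb_map φ t, fun i => ⟨?_, fun hi => ?_⟩⟩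
  · have h1 : (Q i).map (algebraMap ℚ R') = ((Q i).map (algebraMap ℚ R)).map φ := by
      ext a b
      simp
    have h2 := (ht i).1
    unfold Sim at h2 ⊢
    rw [h1, ← Matrix.transpose_map, ← Matrix.map_mul, ← Matrix.map_mul, h2]
    ext a b
    simp
  · have h2 := φ.map_det (t i)
    rw [RingHom.mapMatrix_apply] at h2
    rw [← h2, (ht i).2 hi, map_one]

/-! ### the equations -/

/-- the generic block -/
def GM (κ : Type) {ι : Type} {n : ι → ℕ} (i : ι) : Matrix (Fin (n i)) (Fin (n i))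
    (MvPolynomial ((κ ⊕ Σ i, Fin (n i)) × (κ ⊕ Σ i, Fin (n i))) ℚ) :=
  of fun a b => X (Sum.inr ⟨i, a⟩, Sum.inr ⟨i, b⟩)

/-- the generic value of the form -/
def quad (κ : Type) {ι : Type} {n : ι → ℕ} (Q : ∀ i, Matrix (Fin (n i)) (Fin (n i)) ℚ) (i : ι) :
    Matrix (Fin (n i)) (Fin (n i))
    (MvPolynomial ((κ ⊕ Σ i, Fin (n i)) × (κ ⊕ Σ i, Fin (n i))) ℚ) :=
  (GM κ i)ᵀ * (Q i).map C * GM κ i

/-- evaluation -/
def ev {R : Type} [CommRing R] [Algebra ℚ R]
    (g : Matrix (κ ⊕ Σ i, Fin (n i)) (κ ⊕ Σ i, Fin (n i)) R) :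
    MvPolynomial ((κ ⊕ Σ i, Fin (n i)) × (κ ⊕ Σ i, Fin (n i))) ℚ →+* R :=
  ((aeval fun q : (κ ⊕ Σ i, Fin (n i)) × (κ ⊕ Σ i, Fin (n i)) => g q.1 q.2 :
    MvPolynomial ((κ ⊕ Σ i, Fin (n i)) × (κ ⊕ Σ i, Fin (n i))) ℚ →ₐ[ℚ] R) : _ →+* R)

theorem ev_eq {R : Type} [CommRing R] [Algebra ℚ R]
    (g : Matrix (κ ⊕ Σ i, Fin (n i)) (κ ⊕ Σ i, Fin (n i)) R) (f) : ev g f = vQ g f := rfl

theorem ev_X {R : Type} [CommRing R] [Algebra ℚ R]
    (g : Matrix (κ ⊕ Σ i, Fin (n i)) (κ ⊕ Σ i, Fin (n i)) R) (x y) : ev g (X (x, y)) = g x y :=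
  aeval_X _ _

theorem ev_C {R : Type} [CommRing R] [Algebra ℚ R]
    (g : Matrix (κ ⊕ Σ i, Fin (n i)) (κ ⊕ Σ i, Fin (n i)) R) (q : ℚ) :
    ev g (C q) = algebraMap ℚ R q := aeval_C _ _

theorem GM_map {R : Type} [CommRing R] [Algebra ℚ R]
    (g : Matrix (κ ⊕ Σ i, Fin (n i)) (κ ⊕ Σ i, Fin (n i)) R) (i : ι) :
    (GM κ i).map (ev g) = blk g i := by
  ext a b
  rw [map_apply]
  show ev g (X _) = _
  rw [ev_X]
  rfl

theorem quad_map {R : Type} [CommRing R] [Algebra ℚ R]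
    (g : Matrix (κ ⊕ Σ i, Fin (n i)) (κ ⊕ Σ i, Fin (n i)) R) (i : ι) :
    (quad κ Q i).map (ev g) = (blk g i)ᵀ * (Q i).map (algebraMap ℚ R) * blk g i := by
  have h1 : ((Q i).map C).map (ev g) = (Q i).map (algebraMap ℚ R) := by
    ext a b
    rw [map_apply, map_apply, ev_C, map_apply]
  unfold quad
  rw [Matrix.map_mul, Matrix.map_mul, Matrix.transpose_map, GM_map, h1]

theorem ev_quad {R : Type} [CommRing R] [Algebra ℚ R]
    (g : Matrix (κ ⊕ Σ i, Fin (n i)) (κ ⊕ Σ i, Fin (n i)) R) (i : ι) (a b : Fin (n i)) :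
    ev g (quad κ Q i a b) = ((blk g i)ᵀ * (Q i).map (algebraMap ℚ R) * blk g i) a b := by
  rw [← quad_map]
  rfl

theorem ev_det {R : Type} [CommRing R] [Algebra ℚ R]
    (g : Matrix (κ ⊕ Σ i, Fin (n i)) (κ ⊕ Σ i, Fin (n i)) R) (i : ι) :
    ev g (GM κ i).det = (blk g i).det := by
  rw [RingHom.map_det, RingHom.mapMatrix_apply, GM_map]

/-- the equations of the group -/
inductive IsEq (κ : Type) [DecidableEq κ] {ι : Type} {n : ι → ℕ}
    (Q : ∀ i, Matrix (Fin (n i)) (Fin (n i)) ℚ) (e : ι → ℕ) :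
    MvPolynomial ((κ ⊕ Σ i, Fin (n i)) × (κ ⊕ Σ i, Fin (n i))) ℚ → Prop
  | one (a b : κ) : IsEq κ Q e (X (Sum.inl a, Sum.inl b) - C ((1 : Matrix κ κ ℚ) a b))
  | lr (a : κ) (x : Σ i, Fin (n i)) : IsEq κ Q e (X (Sum.inl a, Sum.inr x))
  | rl (a : κ) (x : Σ i, Fin (n i)) : IsEq κ Q e (X (Sum.inr x, Sum.inl a))
  | off (x y : Σ i, Fin (n i)) (h : x.1 ≠ y.1) : IsEq κ Q e (X (Sum.inr x, Sum.inr y))
  | iso (i : ι) (a b : Fin (n i)) (h : e i = 0) : IsEq κ Q e (quad κ Q i a b - C (Q i a b))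
  | det (i : ι) (h : e i = 0) : IsEq κ Q e ((GM κ i).det - 1)
  | sim (i j : ι) (a b : Fin (n i)) (c d : Fin (n j)) (hi : e i = 1) (hj : e j = 1) :
      IsEq κ Q e (quad κ Q i a b * C (Q j c d) - quad κ Q j c d * C (Q i a b))

theorem inG_iff (he : ∀ i, e i = 0 ∨ e i = 1) (hQ : ∀ i, (Q i).det ≠ 0) (hn : ∀ i, 0 < n i)
    {R : Type} [Field R] [Algebra ℚ R]
    {g : Matrix (κ ⊕ Σ i, Fin (n i)) (κ ⊕ Σ i, Fin (n i)) R} (hg : g.det ≠ 0) :
    InG κ Q e g ↔ ∀ f, IsEq κ Q e f → vQ g f = 0 := by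
  have hcast : Function.Injective (algebraMap ℚ R) := (algebraMap ℚ R).injective
  constructor
  · rintro ⟨t, m, hm, rfl, ht⟩ f hf
    rw [← ev_eq]
    cases hf with
    | one a b =>
      rw [map_sub, ev_X, ev_C]
      show (1 : Matrix κ κ R) a b - _ = 0
      rw [Matrix.one_apply, Matrix.one_apply]
      split_ifs <;> simp
    | lr a x =>
      rw [ev_X]
      rfl
    | rl a x =>
      rw [ev_X]
      rfl
    | off x y h =>
      rw [ev_X]
      obtain ⟨i, a⟩ := x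
      obtain ⟨j, b⟩ := y
      show blockDiagonal' t ⟨i, a⟩ ⟨j, b⟩ = 0
      exact blockDiagonal'_apply_ne _ _ _ h
    | iso i a b h =>
      have h1 := (ht i).1
      rw [h, pow_zero] at h1
      unfold Sim at h1
      rw [map_sub, ev_quad, ev_C, blk_emb, h1, one_smul, Matrix.map_apply, sub_self]
    | det i h => rw [map_sub, ev_det, blk_emb, (ht i).2 h, map_one, sub_self]
    | sim i j a b c d hi hj =>
      have h1 := (ht i).1
      have h2 := (ht j).1
      rw [hi, pow_one] at h1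
      rw [hj, pow_one] at h2
      unfold Sim at h1 h2
      rw [map_sub, map_mul, map_mul, ev_quad, ev_quad, ev_C, ev_C, blk_emb, blk_emb, h1, h2,
        Matrix.smul_apply, Matrix.smul_apply, Matrix.map_apply, Matrix.map_apply, smul_eq_mul,
        smul_eq_mul]
      ring
  · intro h
    have hge : g = emb κ (blk g) := by
      ext x y
      rcases x with a | ⟨i, a⟩ <;> rcases y with b | ⟨j, b⟩
      · have h1 := h _ (IsEq.one a b)
        rw [← ev_eq, map_sub, ev_X, ev_C, sub_eq_zero] at h1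
        rw [h1]
        show _ = (1 : Matrix κ κ R) a b
        rw [Matrix.one_apply, Matrix.one_apply]
        split_ifs <;> simp
      · have h1 := h _ (IsEq.lr a ⟨j, b⟩)
        rw [← ev_eq, ev_X] at h1
        rw [h1]
        rfl
      · have h1 := h _ (IsEq.rl b ⟨i, a⟩)
        rw [← ev_eq, ev_X] at h1
        rw [h1]
        rfl
      · by_cases hij : i = j
        · subst hij
          show g _ _ = blockDiagonal' (blk g) ⟨i, a⟩ ⟨i, b⟩
          rw [blockDiagonal'_apply_eq]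
          rfl
        · have h1 := h _ (IsEq.off ⟨i, a⟩ ⟨j, b⟩ hij)
          rw [← ev_eq, ev_X] at h1
          rw [h1]
          exact (blockDiagonal'_apply_ne (blk g) a b hij).symm
    have hdetb : ∀ i, (blk g i).det ≠ 0 := by
      intro i
      rw [hge] at hg
      exact blk_det_ne hg i
    have hiso : ∀ i, e i = 0 → (blk g i)ᵀ * (Q i).map (algebraMap ℚ R) * blk g i =
        (Q i).map (algebraMap ℚ R) := by
      intro i hi
      ext a b
      have h1 := h _ (IsEq.iso i a b hi)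
      rw [← ev_eq, map_sub, ev_quad, ev_C, sub_eq_zero] at h1
      rw [h1, Matrix.map_apply]
    have hdet : ∀ i, e i = 0 → (blk g i).det = 1 := by
      intro i hi
      have h1 := h _ (IsEq.det i hi)
      rwa [← ev_eq, map_sub, ev_det, map_one, sub_eq_zero] at h1
    by_cases hex : ∃ j, e j = 1
    · obtain ⟨j, hj⟩ := hex
      obtain ⟨c, d, hcd⟩ : ∃ c d, Q j c d ≠ 0 := by
        by_contra hcon
        push Not at hcon
        apply hQ j
        have h1 : Q j = 0 := by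
          ext c d
          exact hcon c d
        have : Nonempty (Fin (n j)) := ⟨⟨0, hn j⟩⟩
        rw [h1, Matrix.det_zero]
      have hcd' : algebraMap ℚ R (Q j c d) ≠ 0 := (map_ne_zero _).2 hcd
      set m : R := ((blk g j)ᵀ * (Q j).map (algebraMap ℚ R) * blk g j) c d /
        algebraMap ℚ R (Q j c d) with hm
      have hsim : ∀ i, e i = 1 → Sim ((Q i).map (algebraMap ℚ R)) (blk g i) m := by
        intro i hi
        show _ = m • _
        ext a b
        have h1 := h _ (IsEq.sim i j a b c d hi hj)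
        rw [← ev_eq, map_sub, map_mul, map_mul, ev_quad, ev_quad, ev_C, ev_C, sub_eq_zero] at h1
        rw [Matrix.smul_apply, smul_eq_mul, Matrix.map_apply, hm, div_mul_eq_mul_div,
          eq_div_iff hcd']
        exact h1
      have hm0 : m ≠ 0 := by
        intro h0
        have h1 := hsim j hj
        rw [h0] at h1
        unfold Sim at h1
        rw [zero_smul] at h1
        have h2 := congrArg Matrix.det h1
        have : Nonempty (Fin (n j)) := ⟨⟨0, hn j⟩⟩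
        rw [det_mul, det_mul, det_transpose, Matrix.det_zero] at h2
        exact mul_ne_zero (mul_ne_zero (hdetb j) (qmap_det (hQ j))) (hdetb j) h2
      refine ⟨blk g, m, hm0, hge, fun i => ⟨?_, hdet i⟩⟩
      rcases he i with hi | hi
      · rw [hi, pow_zero]
        show _ = (1 : R) • _
        rw [one_smul]
        exact hiso i hi
      · rw [hi, pow_one]
        exact hsim i hi
    · refine ⟨blk g, 1, one_ne_zero, hge, fun i => ⟨?_, hdet i⟩⟩
      rcases he i with hi | hi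
      · rw [one_pow]
        show _ = (1 : R) • _
        rw [one_smul]
        exact hiso i hi
      · exact absurd ⟨i, hi⟩ hex

theorem inG_qgroup (he : ∀ i, e i = 0 ∨ e i = 1) (hQ : ∀ i, (Q i).det ≠ 0) (hn : ∀ i, 0 < n i) :
    IsQGroup {g : Matrix (κ ⊕ Σ i, Fin (n i)) (κ ⊕ Σ i, Fin (n i)) ℂ | InG κ Q e g} := by
  refine ⟨⟨{f | IsEq κ Q e f}, fun g => ⟨fun h => ⟨InG.det_ne hQ h, ?_⟩, fun h => ?_⟩⟩, ?_, ?_, ?_⟩
  · exact (inG_iff he hQ hn (InG.det_ne hQ h)).1 h
  · exact (inG_iff he hQ hn h.1).2 h.2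
  · refine ⟨fun i => 1, 1, one_ne_zero, emb_one.symm, fun i => ⟨?_, fun _ => det_one⟩⟩
    show _ = _
    rw [transpose_one, one_mul, mul_one, one_pow, one_smul]
  · rintro _ ⟨t, m, hm, rfl, ht⟩ _ ⟨t', m', hm', rfl, ht'⟩
    refine ⟨fun i => t i * t' i, m * m', mul_ne_zero hm hm', emb_mul _ _, fun i => ⟨?_, fun hi => ?_⟩⟩
    · rw [mul_pow]
      exact Pool.Agent.R932.GR.sim_mul (ht i).1 (ht' i).1
    · rw [det_mul, (ht i).2 hi, (ht' i).2 hi, mul_one]
  · rintro _ ⟨t, m, hm, rfl, ht⟩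
    have hd : ∀ i, (t i).det ≠ 0 := fun i =>
      sim_det_ne (qmap_det (hQ i)) (pow_ne_zero _ hm) (ht i).1
    refine ⟨fun i => (t i)⁻¹, m⁻¹, inv_ne_zero hm, emb_inv hd, fun i => ⟨?_, fun hi => ?_⟩⟩
    · have h1 := (ht i).1
      unfold Sim at h1 ⊢
      have h2 : t i * (t i)⁻¹ = 1 := Matrix.mul_nonsing_inv _ (isUnit_iff_ne_zero.2 (hd i))
      have h3 : ((t i)⁻¹)ᵀ * (t i)ᵀ = 1 := by rw [← transpose_mul, h2, transpose_one]
      have h4 : ((t i)⁻¹)ᵀ * ((t i)ᵀ * (Q i).map (algebraMap ℚ ℂ) * t i) * (t i)⁻¹ =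
          (Q i).map (algebraMap ℚ ℂ) := by
        calc ((t i)⁻¹)ᵀ * ((t i)ᵀ * (Q i).map (algebraMap ℚ ℂ) * t i) * (t i)⁻¹ =
            (((t i)⁻¹)ᵀ * (t i)ᵀ) * (Q i).map (algebraMap ℚ ℂ) * (t i * (t i)⁻¹) := by
              simp only [Matrix.mul_assoc]
          _ = _ := by rw [h2, h3, Matrix.one_mul, Matrix.mul_one]
      rw [h1, Matrix.mul_smul, Matrix.smul_mul] at h4
      rw [inv_pow, eq_inv_smul_iff₀ (pow_ne_zero _ hm)]
      exact h4
    · rw [det_nonsing_inv, (ht i).2 hi, Ring.inverse_one]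

end

end Pool.Agent.T2H36.MG
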