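import Pool.Agent.T2H36.MG.H1

set_option autoImplicit false
set_option linter.unusedSectionVars false
set_option linter.style.haveILetI false

/-!
Project MG, part 2: the Mumford-Tate group is the whole group.
-/

open MvPolynomial Matrix
open Pool.Agent.Y95.MT
open Pool.Agent.Y142.ZS (Sim)

namespace Pool.Agent.T2H36.MG

noncomputable section

variable {κ : Type} [Fintype κ] [DecidableEq κ] {ι : Type} [Fintype ι] [DecidableEq ι] {n : ι → ℕ}
  {Q : ∀ i, Matrix (Fin (n i)) (Fin (n i)) ℚ} {e : ι → ℕ}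

/-- normalisation of a family of similitudes over a field -/
theorem norm_fam {F : Type} [Field F] [Algebra ℚ F] (hQ : ∀ i, (Q i).det ≠ 0)
    (he : ∀ i, e i = 0 ∨ (Q i)ᵀ = -Q i) {t : ∀ i, Matrix (Fin (n i)) (Fin (n i)) F} {s m : F}
    (hm : m ≠ 0) (hs : s ^ 2 = m)
    (ht : ∀ i, Sim ((Q i).map (algebraMap ℚ F)) (t i) (m ^ e i) ∧ (e i = 0 → (t i).det = 1)) :
    (∀ i, Sim ((Q i).map (algebraMap ℚ F)) ((s⁻¹) ^ e i • t i) 1) ∧
      (∀ i, ((s⁻¹) ^ e i • t i).det = 1) ∧ s ≠ 0 ∧ ∀ i, s ^ e i • ((s⁻¹) ^ e i • t i) = t i := by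
  haveI : CharZero F := algebraRat.charZero F
  have hs0 : s ≠ 0 := by
    rintro rfl
    apply hm
    rw [← hs]
    norm_num
  have h1 : ∀ i, Sim ((Q i).map (algebraMap ℚ F)) ((s⁻¹) ^ e i • t i) 1 := by
    intro i
    have h2 := Pool.Agent.R932.GR.sim_smul ((s⁻¹) ^ e i) (ht i).1
    have h3 : (s⁻¹) ^ e i * (s⁻¹) ^ e i * m ^ e i = 1 := by
      rw [← mul_pow, ← mul_pow, ← hs]
      have h4 : s⁻¹ * s⁻¹ * s ^ 2 = 1 := by field_simp
      rw [h4, one_pow]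
    rwa [h3] at h2
  refine ⟨h1, fun i => ?_, hs0, fun i => ?_⟩
  · by_cases h0 : e i = 0
    · rw [h0, pow_zero, one_smul]
      exact (ht i).2 h0
    · have h2 := (he i).resolve_left h0
      have h3 : ((Q i).map (algebraMap ℚ F))ᵀ = -((Q i).map (algebraMap ℚ F)) := by
        rw [← Matrix.transpose_map, h2]
        ext a b
        simp
      refine Pool.Agent.R932.GR.sp_det_one h3 (qmap_det (hQ i)) ?_
      have h4 := h1 i
      unfold Sim at h4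
      rwa [one_smul] at h4
  · rw [smul_smul, ← mul_pow, mul_inv_cancel₀ hs0, one_pow, one_smul]

variable (κ Q e) in
/-- the Hodge structure: `h z` is a family of similitudes, the multiplier takes infinitely many
values -/
def Hod (h : ℂ → Matrix (κ ⊕ Σ i, Fin (n i)) (κ ⊕ Σ i, Fin (n i)) ℂ) : Prop :=
  ∃ m : ℂ → ℂ, (m '' {z | z ≠ 0}).Infinite ∧ ∀ z, z ≠ 0 → m z ≠ 0 ∧
    ∃ t : ∀ i, Matrix (Fin (n i)) (Fin (n i)) ℂ, h z = emb κ t ∧
      ∀ i, Sim ((Q i).map (algebraMap ℚ ℂ)) (t i) (m z ^ e i) ∧ (e i = 0 → (t i).det = 1)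

variable (κ Q) in
/-- the Mumford-Tate group contains all families of isometries of determinant one -/
def Big (h : ℂ → Matrix (κ ⊕ Σ i, Fin (n i)) (κ ⊕ Σ i, Fin (n i)) ℂ) : Prop :=
  ∀ t : ∀ i, Matrix (Fin (n i)) (Fin (n i)) ℂ,
    (∀ i, (t i)ᵀ * (Q i).map (algebraMap ℚ ℂ) * t i = (Q i).map (algebraMap ℚ ℂ)) →
    (∀ i, (t i).det = 1) → emb κ t ∈ MTgroup h

variable {h : ℂ → Matrix (κ ⊕ Σ i, Fin (n i)) (κ ⊕ Σ i, Fin (n i)) ℂ}

theorem sim_one {F : Type} [Field F] {m : ℕ} {J g : Matrix (Fin m) (Fin m) F} :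
    Sim J g 1 ↔ gᵀ * J * g = J := by
  unfold Sim
  rw [one_smul]

theorem lam_mem (hQ : ∀ i, (Q i).det ≠ 0) (he : ∀ i, e i = 0 ∨ (Q i)ᵀ = -Q i)
    (hh : Hod κ Q e h) (hb : Big κ Q h) {s : ℂ} (hs : s ≠ 0) :
    emb κ (fun i => s ^ e i • (1 : Matrix (Fin (n i)) (Fin (n i)) ℂ)) ∈ MTgroup h := by
  intro G hG hhG
  obtain ⟨m, hinf, hm⟩ := hh
  obtain ⟨⟨P, hP⟩, h1, hmul, hinv⟩ := hG
  refine (hP _).2 ⟨?_, fun f hf => ?_⟩
  · refine emb_det_ne fun i => ?_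
    rw [det_smul, det_one, mul_one]
    exact pow_ne_zero _ (pow_ne_zero _ hs)
  · let Λ : Matrix (κ ⊕ Σ i, Fin (n i)) (κ ⊕ Σ i, Fin (n i)) (Polynomial ℂ) :=
      emb κ (fun i => (Polynomial.X : Polynomial ℂ) ^ e i •
        (1 : Matrix (Fin (n i)) (Fin (n i)) (Polynomial ℂ)))
    have hev : ∀ u : ℂ, Polynomial.eval u (vQ Λ f) =
        vQ (emb κ (fun i => u ^ e i • (1 : Matrix (Fin (n i)) (Fin (n i)) ℂ))) f := by
      intro u
      have h2 := vQ_map (Polynomial.evalRingHom u) Λ f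
      rw [Polynomial.coe_evalRingHom] at h2
      rw [← h2]
      congr 1
      show (emb κ _).map (Polynomial.evalRingHom u) = _
      rw [emb_map]
      congr 1
      funext i
      ext a b
      simp only [Matrix.map_apply, Matrix.smul_apply, Matrix.one_apply, smul_eq_mul]
      split_ifs <;> simp
    have hroot : ∀ u : ℂ, u ^ 2 ∈ m '' {z | z ≠ 0} → Polynomial.IsRoot (vQ Λ f) u := by
      rintro u ⟨z, hz, hu⟩
      rw [Polynomial.IsRoot.def, hev]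
      obtain ⟨hm0, t, hht, ht⟩ := hm z hz
      obtain ⟨h2, h3, h4, h5⟩ := norm_fam hQ he hm0 hu.symm ht
      have h6 := hb _ (fun i => sim_one.1 (h2 i)) h3 G ⟨⟨P, hP⟩, h1, hmul, hinv⟩ hhG
      have h7 : emb κ (fun i => u ^ e i • (1 : Matrix (Fin (n i)) (Fin (n i)) ℂ)) *
          emb κ (fun i => (u⁻¹) ^ e i • t i) = h z := by
        rw [emb_mul, hht]
        congr 1
        funext i
        rw [smul_mul_assoc, one_mul]
        exact h5 i
      have h8 : emb κ (fun i => u ^ e i • (1 : Matrix (Fin (n i)) (Fin (n i)) ℂ)) =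
          h z * (emb κ (fun i => (u⁻¹) ^ e i • t i))⁻¹ := by
        rw [← h7, mul_assoc, Matrix.mul_nonsing_inv _ (isUnit_iff_ne_zero.2 ((hP _).1 h6).1),
          mul_one]
      have h9 := hmul _ (hhG z hz) _ (hinv _ h6)
      rw [← h8] at h9
      exact ((hP _).1 h9).2 f hf
    have hzero : vQ Λ f = 0 := by
      refine Polynomial.eq_zero_of_infinite_isRoot _ ?_
      refine Set.Infinite.mono (fun u hu => hroot u hu) ?_
      intro hfin
      apply hinf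
      refine (hfin.image fun u : ℂ => u ^ 2).subset ?_
      intro c hc
      obtain ⟨u, hu⟩ := IsAlgClosed.exists_pow_nat_eq c (by norm_num : 0 < 2)
      refine ⟨u, ?_, hu⟩
      show u ^ 2 ∈ m '' {z | z ≠ 0}
      rw [hu]
      exact hc
    rw [← hev, hzero, Polynomial.eval_zero]

theorem mt_of_inG (hQ : ∀ i, (Q i).det ≠ 0) (he : ∀ i, e i = 0 ∨ (Q i)ᵀ = -Q i)
    (hh : Hod κ Q e h) (hb : Big κ Q h) {g : Matrix (κ ⊕ Σ i, Fin (n i)) (κ ⊕ Σ i, Fin (n i)) ℂ}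
    (hg : InG κ Q e g) : g ∈ MTgroup h := by
  obtain ⟨t, m, hm, rfl, ht⟩ := hg
  obtain ⟨s, hs⟩ := IsAlgClosed.exists_pow_nat_eq m (by norm_num : 0 < 2)
  obtain ⟨h2, h3, h4, h5⟩ := norm_fam hQ he hm hs ht
  have h6 := MT_mul (lam_mem hQ he hh hb h4) (hb _ (fun i => sim_one.1 (h2 i)) h3)
  rw [emb_mul] at h6
  have h7 : (fun i => s ^ e i • (1 : Matrix (Fin (n i)) (Fin (n i)) ℂ) * ((s⁻¹) ^ e i • t i)) = t := by
    funext i
    rw [smul_mul_assoc, one_mul]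
    exact h5 i
  rwa [h7] at h6

theorem inG_of_mt (he1 : ∀ i, e i = 0 ∨ e i = 1) (hQ : ∀ i, (Q i).det ≠ 0) (hn : ∀ i, 0 < n i)
    (hh : Hod κ Q e h) {g : Matrix (κ ⊕ Σ i, Fin (n i)) (κ ⊕ Σ i, Fin (n i)) ℂ}
    (hg : g ∈ MTgroup h) : InG κ Q e g := by
  refine hg _ (inG_qgroup he1 hQ hn) fun z hz => ?_
  obtain ⟨m, hinf, hm⟩ := hh
  obtain ⟨hm0, t, hht, ht⟩ := hm z hz
  exact ⟨t, m z, hm0, hht, ht⟩

/-- **the points of the Mumford-Tate group over a field** -/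
theorem inMT_iff (he1 : ∀ i, e i = 0 ∨ e i = 1) (he : ∀ i, e i = 0 ∨ (Q i)ᵀ = -Q i)
    (hQ : ∀ i, (Q i).det ≠ 0) (hn : ∀ i, 0 < n i) (hh : Hod κ Q e h) (hb : Big κ Q h)
    {R : Type} [Field R] [Algebra ℚ R] (ε : R →+* ℂ)
    {g : Matrix (κ ⊕ Σ i, Fin (n i)) (κ ⊕ Σ i, Fin (n i)) R} (hg : g.det ≠ 0) :
    InMT h g ↔ InG κ Q e g := by
  constructor
  · intro hm
    refine (inG_iff he1 hQ hn hg).2 fun f hf => hm f fun x hx => ?_
    have h1 := inG_of_mt he1 hQ hn hh hx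
    exact (inG_iff he1 hQ hn (InG.det_ne hQ h1)).1 h1 f hf
  · intro hG f hf
    have h1 := hf _ (mt_of_inG hQ he hh hb (hG.map ε))
    rw [vQ_map] at h1
    exact (map_eq_zero ε).1 h1

end

end Pool.Agent.T2H36.MG
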