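import Pool.Agent.T2H36.MG.H3

set_option autoImplicit false
set_option linter.unusedSectionVars false
set_option linter.style.haveILetI false

/-!
Project MG, part 4: the Mumford-Tate conjecture from one prime.
-/

open Matrix Polynomial Filter Topology NumberField IsDedekindDomain
open Pool.Agent.Y142.ZO Pool.Agent.Y142.ZS
open Pool.Agent.Y95.MT
open Pool.Agent.R932.PO (JTan IsForm Kind Fits Allows Sys JL det_map_ne)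
open Pool.Agent.R932.EV (SS SC)

namespace Pool.Agent.T2H36.MG

noncomputable section

variable {κ : Type} [Fintype κ] [DecidableEq κ] {ι : Type} [Fintype ι] [DecidableEq ι] {n : ι → ℕ}
  {Q : ∀ i, Matrix (Fin (n i)) (Fin (n i)) ℚ} {e : ι → ℕ}
  {K : Type} [Field K] [NumberField K] {S : Set (HeightOneSpectrum (𝓞 K))}
  {P : ι → HeightOneSpectrum (𝓞 K) → ℚ[X]} {kd : ι → Kind}
  {h : ℂ → Matrix (κ ⊕ Σ i, Fin (n i)) (κ ⊕ Σ i, Fin (n i)) ℂ}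

/-- **the Mumford-Tate conjecture at one prime gives the conjecture at 100 percent of the primes, and at
all primes at which the representations are semisimple with scalar commutants** -/
theorem mg_main (hS : S.Finite) (hfit : ∀ i, Fits (kd i) (Q i)) (hQ : ∀ i, (Q i).det ≠ 0)
    (hek : ∀ i, (kd i = Kind.sym ∧ e i = 1) ∨ (kd i ≠ Kind.sym ∧ e i = 0))
    (hh : Hod κ Q e h) (hb : Big κ Q h) {w : ℤ} (hw : w ≠ 0)
    (α : ∀ (ℓ : ℕ) [Fact ℓ.Prime], GK K →* Matrix κ κ ℚ_[ℓ])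
    (hα : ∀ (ℓ : ℕ) [Fact ℓ.Prime], (Set.range (α ℓ)).Finite)
    (χ : ∀ (ℓ : ℕ) [Fact ℓ.Prime], GK K →* ℚ_[ℓ])
    (hχ : ∀ (ℓ : ℕ) [Fact ℓ.Prime], ∀ v ∉ S, (ℓ : 𝓞 K) ∉ v.asIdeal → ∀ σ : GK K, IsFrobenius v σ →
      χ ℓ σ⁻¹ = (Ideal.absNorm v.asIdeal : ℚ_[ℓ]) ^ w)
    (ρ : ∀ (i : ι) (ℓ : ℕ) [Fact ℓ.Prime], GK K →* Matrix (Fin (n i)) (Fin (n i)) ℚ_[ℓ])
    (hρc : ∀ (i : ι) (ℓ : ℕ) [Fact ℓ.Prime], Continuous (ρ i ℓ))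
    (hmult : ∀ (i : ι) (ℓ : ℕ) [Fact ℓ.Prime] (g : GK K),
      Sim (JL Q ℓ i) (ρ i ℓ g) (χ ℓ g ^ e i))
    (hfrob : ∀ (i : ι) (ℓ : ℕ) [Fact ℓ.Prime], ∀ v ∉ S, (ℓ : 𝓞 K) ∉ v.asIdeal → ∀ σ : GK K,
      IsFrobenius v σ → (ρ i ℓ σ⁻¹).charpoly = (P i v).map (algebraMap ℚ ℚ_[ℓ]))
    (ℓ₀ : ℕ) [hℓ₀ : Fact ℓ₀.Prime] (hal : ∀ i, Allows (kd i) (n i) ℓ₀ (JL Q ℓ₀ i))
    (hone : MTC h (tot' (α ℓ₀) (fun i => ρ i ℓ₀))) :
    Y142.ZI.DensityZero {ℓ | ∃ _ : Fact ℓ.Prime, ¬ MTC h (tot' (α ℓ) (fun i => ρ i ℓ))} ∧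
    ∀ (ℓ : ℕ) [Fact ℓ.Prime], (∀ i, SS (ρ i ℓ)) → (∀ i, SC (ρ i ℓ)) →
      MTC h (tot' (α ℓ) (fun i => ρ i ℓ)) := by
  classical
  have he1 : ∀ i, e i = 0 ∨ e i = 1 := fun i => (hek i).elim (fun h => Or.inr h.2) fun h => Or.inl h.2
  have he : ∀ i, e i = 0 ∨ (Q i)ᵀ = -Q i := by
    intro i
    rcases hek i with ⟨h1, -⟩ | ⟨-, h2⟩
    · have h3 := hfit i
      rw [h1] at h3
      exact Or.inr h3.1
    · exact Or.inl h2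
  have hpos : ∀ i, 0 < n i := fun i => (hfit i).pos
  have hsy : ∀ i, (Q i)ᵀ = Q i → e i = 0 := by
    intro i hsym
    rcases hek i with ⟨h1, -⟩ | ⟨-, h2⟩
    · exfalso
      have h3 := hfit i
      rw [h1] at h3
      have h4 := h3.1
      rw [hsym] at h4
      have h5 : Q i = 0 := by
        ext a b
        have h6 := congrFun (congrFun h4 a) b
        rw [Matrix.neg_apply] at h6
        rw [Matrix.zero_apply]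
        linarith
      have : Nonempty (Fin (n i)) := ⟨⟨0, hpos i⟩⟩
      exact hQ i (by rw [h5, Matrix.det_zero])
    · exact h2
  have hfitL : ∀ (ℓ : ℕ) [Fact ℓ.Prime] (i : ι), Fits (kd i) (JL Q ℓ i) := fun ℓ _ i =>
    (hfit i).map (algebraMap ℚ ℚ_[ℓ])
  have hdetL : ∀ (ℓ : ℕ) [Fact ℓ.Prime] (i : ι), (JL Q ℓ i).det ≠ 0 := fun ℓ _ i =>
    det_map_ne (algebraMap ℚ ℚ_[ℓ]) (hQ i)
  have hform : ∀ (ℓ : ℕ) [Fact ℓ.Prime] (i : ι), IsForm (JL Q ℓ i) := fun ℓ _ i =>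
    (hfitL ℓ i).isForm (hdetL ℓ i)
  have hsymL : ∀ (ℓ : ℕ) [Fact ℓ.Prime] (i : ι), (JL Q ℓ i)ᵀ = JL Q ℓ i → e i = 0 := by
    intro ℓ _ i h
    refine hsy i ?_
    ext p q
    have h1 := congrFun (congrFun h p) q
    exact (algebraMap ℚ ℚ_[ℓ]).injective h1
  have hsys : ∀ (i : ι) (ℓ : ℕ) [Fact ℓ.Prime], Sys (MonoidHom.id (GK K)) (kd i) (n i) ℓ (ρ i ℓ)
      (JL Q ℓ i) S (P i) (fun v => ((Ideal.absNorm v.asIdeal : ℚ) ^ w) ^ e i) := by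
    intro i ℓ _
    refine ⟨hρc i ℓ, hfitL ℓ i, hdetL ℓ i, fun γ => ⟨χ ℓ γ ^ e i, hmult i ℓ γ, fun h => ?_⟩, ?_⟩
    · rw [hsymL ℓ i h, pow_zero]
    · intro v hv hvℓ σ hσ
      refine ⟨hfrob i ℓ v hv hvℓ σ hσ, ?_⟩
      have h1 : Sim (JL Q ℓ i) (ρ i ℓ σ⁻¹) (χ ℓ σ⁻¹ ^ e i) := hmult i ℓ σ⁻¹
      rw [hχ ℓ v hv hvℓ σ hσ] at h1
      show (ρ i ℓ σ⁻¹)ᵀ * JL Q ℓ i * ρ i ℓ σ⁻¹ =
        ((((Ideal.absNorm v.asIdeal : ℚ) ^ w) ^ e i : ℚ) : ℚ_[ℓ]) • JL Q ℓ i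
      rw [Rat.cast_pow, Rat.cast_zpow, Rat.cast_natCast]
      exact h1
  have hχinf : ∀ (ℓ : ℕ) [Fact ℓ.Prime], ∃ σ, ∀ k : ℕ, 0 < k → χ ℓ σ ^ k ≠ 1 := by
    intro ℓ hℓ
    obtain ⟨v, hv, -⟩ := Y405.ZO.t K Set.univ isOpen_univ ⟨1, trivial⟩
      (S ∪ {v | (ℓ : 𝓞 K) ∈ v.asIdeal}) (hS.union (finite_above ℓ hℓ.out))
    obtain ⟨σ, hσ⟩ := Pool.Agent.W401.Frob.exists_frob v
    refine ⟨σ⁻¹, fun k hk h => ?_⟩
    rw [hχ ℓ v (fun h => hv (Or.inl h)) (fun h => hv (Or.inr h)) σ hσ] at h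
    have h1 : ((Ideal.absNorm v.asIdeal : ℚ) ^ w) ^ k = 1 := by
      have h0 : ((((Ideal.absNorm v.asIdeal : ℚ) ^ w) ^ k : ℚ) : ℚ_[ℓ]) = ((1 : ℚ) : ℚ_[ℓ]) := by
        rw [Rat.cast_pow, Rat.cast_zpow, Rat.cast_natCast, Rat.cast_one]
        exact h
      exact Rat.cast_injective h0
    have h2 : 1 < (Ideal.absNorm v.asIdeal : ℚ) := by
      have h3 : Ideal.absNorm v.asIdeal ≠ 1 := fun h3 =>
        v.isPrime.ne_top (Ideal.absNorm_eq_one_iff.1 h3)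
      have h4 : Ideal.absNorm v.asIdeal ≠ 0 := fun h4 =>
        v.ne_bot (Ideal.absNorm_eq_zero_iff.1 h4)
      have h5 : 1 < Ideal.absNorm v.asIdeal := by omega
      exact_mod_cast h5
    rw [← zpow_natCast, ← _root_.zpow_mul] at h1
    have h3 : w * (k : ℤ) = 0 := by
      have h0 : (0 : ℚ) < (Ideal.absNorm v.asIdeal : ℚ) := lt_trans one_pos h2
      refine zpow_right_injective₀ (a := (Ideal.absNorm v.asIdeal : ℚ)) h0 h2.ne' ?_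
      show (Ideal.absNorm v.asIdeal : ℚ) ^ (w * (k : ℤ)) = (Ideal.absNorm v.asIdeal : ℚ) ^ (0 : ℤ)
      rw [h1, zpow_zero]
    rcases mul_eq_zero.1 h3 with h4 | h4
    · exact hw h4
    · have : (k : ℤ) ≠ 0 := by exact_mod_cast hk.ne'
      exact this h4
  have hfull₀ : ∀ X, (∀ i, SpLie (JL Q ℓ₀ i) (X i)) →
      JTan ℓ₀ (fun i => (ρ i ℓ₀).comp (MonoidHom.id (GK K))) X := by
    intro X hX
    exact full_of_mtc' he1 he (hform ℓ₀) hQ hpos hh hb (fun i => hρc i ℓ₀)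
      (fun i g => ⟨_, hmult i ℓ₀ g⟩) hone X hX
  have hsev := Pool.Agent.R932.PO.several (K := K) Pool.Agent.R932.PO.tasks
    (s := MonoidHom.id (GK K)) continuous_id hS ρ (fun i ℓ _ => JL Q ℓ i) hsys ℓ₀ hal hfull₀
  have hconc : ∀ (ℓ : ℕ) [Fact ℓ.Prime],
      (∀ X, (∀ i, SpLie (JL Q ℓ i) (X i)) → JTan ℓ (fun i => ρ i ℓ) X) →
      MTC h (tot' (α ℓ) (fun i => ρ i ℓ)) := by
    intro ℓ _ hf
    exact mtc_of_full he1 he hsy (hform ℓ) hQ hpos hh hb (fun i => hρc i ℓ)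
      (fun i g => hmult i ℓ g) (hχinf ℓ) (hα ℓ) hf
  constructor
  · refine Y142.ZI.DensityZero.mono hsev.1 ?_
    rintro ℓ ⟨hp, hno⟩
    exact ⟨hp, fun h => hno (hconc ℓ h)⟩
  · intro ℓ _ hss hsc
    exact hconc ℓ (hsev.2 ℓ hss hsc)

end

end Pool.Agent.T2H36.MG
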